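import Pool.Agent.X133.OP.Stk

/-!
# Counting lists of lattice points
-/

set_option autoImplicit false

open scoped BigOperators

namespace Pool.Agent.X133.OP

variable {E : Type} [DecidableEq E]

/-- the lists of length `m` with entries in `A` -/
def LL (A : Finset E) : ℕ → Finset (List E)
  | 0 => {[]}
  | m + 1 => (A ×ˢ LL A m).image (fun p => p.1 :: p.2)

theorem mem_LL (A : Finset E) (m : ℕ) (l : List E) :
    l ∈ LL A m ↔ l.length = m ∧ ∀ e ∈ l, e ∈ A := by
  induction m generalizing l with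
  | zero =>
    simp only [LL, Finset.mem_singleton]
    constructor
    · rintro rfl
      simp
    · rintro ⟨h, -⟩
      exact List.length_eq_zero_iff.1 h
  | succ m ih =>
    simp only [LL, Finset.mem_image, Finset.mem_product, Prod.exists]
    constructor
    · rintro ⟨a, l', ⟨ha, hl⟩, rfl⟩
      obtain ⟨h1, h2⟩ := (ih l').1 hl
      refine ⟨by simp [h1], fun e he => ?_⟩
      rcases List.mem_cons.1 he with rfl | he
      · exact ha
      · exact h2 e he
    · rintro ⟨h1, h2⟩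
      cases l with
      | nil => simp at h1
      | cons a l =>
        refine ⟨a, l, ⟨h2 a (by simp), (ih l).2 ⟨by simpa using h1, fun e he =>
          h2 e (List.mem_cons_of_mem _ he)⟩⟩, rfl⟩

theorem sum_LL (A : Finset E) (m : ℕ) (f : List E → ℝ) :
    ∑ l ∈ LL A (m + 1), f l = ∑ e ∈ A, ∑ l ∈ LL A m, f (e :: l) := by
  simp only [LL]
  rw [Finset.sum_image, Finset.sum_product]
  intro p _ q _ h
  simp only [List.cons.injEq] at h
  exact Prod.ext h.1 h.2

/-- weight of one coordinate step, from `b` to the later point `a` -/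
noncomputable def g (θ lam : ℝ) (a b : ℕ) : ℝ :=
  if a ≤ b then lam * Real.exp (-((b - a : ℕ) : ℝ)) else Real.exp (-(θ * ((a - b : ℕ) : ℝ)))

/-- weight of a list of points -/
noncomputable def wt (θ lam : ℝ) : List (ℕ × ℕ) → ℝ
  | [] => 1
  | [_] => 1
  | a :: b :: l => g θ lam a.1 b.1 * g θ lam a.2 b.2 * wt θ lam (b :: l)

/-- total amount of forward steps -/
def up : List (ℕ × ℕ) → ℕ
  | [] => 0
  | [_] => 0
  | a :: b :: l => (a.1 - b.1) + (a.2 - b.2) + up (b :: l)

theorem up_le (a : ℕ × ℕ) (l : List (ℕ × ℕ)) : up (a :: l) ≤ a.1 + a.2 + cst (a :: l) := by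
  induction l generalizing a with
  | nil => simp [up]
  | cons b l ih =>
    have := ih b
    simp only [up, cst]
    omega

theorem g_nonneg {θ lam : ℝ} (hl : 0 ≤ lam) (a b : ℕ) : 0 ≤ g θ lam a b := by
  unfold g
  split_ifs <;> positivity

theorem wt_nonneg {θ lam : ℝ} (hl : 0 ≤ lam) (l : List (ℕ × ℕ)) : 0 ≤ wt θ lam l := by
  induction l with
  | nil => simp [wt]
  | cons a l ih =>
    cases l with
    | nil => simp [wt]
    | cons b l =>
      simp only [wt]
      exact mul_nonneg (mul_nonneg (g_nonneg hl _ _) (g_nonneg hl _ _)) ih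

theorem g_eq (θ lam : ℝ) (a b : ℕ) : g θ lam a b = lam ^ (if a ≤ b then 1 else 0) *
    Real.exp (-((b - a : ℕ) : ℝ)) * Real.exp (-(θ * ((a - b : ℕ) : ℝ))) := by
  unfold g
  split_ifs with h
  · rw [Nat.sub_eq_zero_of_le h]
    simp
  · rw [Nat.sub_eq_zero_of_le (Nat.le_of_not_le h)]
    simp

theorem wt_eq (θ lam : ℝ) (l : List (ℕ × ℕ)) : wt θ lam l =
    lam ^ an l * Real.exp (-(cst l : ℝ)) * Real.exp (-(θ * (up l : ℝ))) := by
  induction l with
  | nil => simp [wt, an, cst, up]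
  | cons a l ih =>
    cases l with
    | nil => simp [wt, an, cst, up]
    | cons b l =>
      simp only [wt, an, cst, up]
      rw [ih, g_eq, g_eq]
      push_cast
      rw [pow_add, pow_add]
      have e1 : Real.exp (-(((b.1 - a.1 : ℕ) : ℝ) + ((b.2 - a.2 : ℕ) : ℝ) + (cst (b :: l) : ℝ))) =
        Real.exp (-((b.1 - a.1 : ℕ) : ℝ)) * Real.exp (-((b.2 - a.2 : ℕ) : ℝ)) *
        Real.exp (-(cst (b :: l) : ℝ)) := by
        rw [← Real.exp_add, ← Real.exp_add]
        congr 1
        ring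
      have e2 : Real.exp (-(θ * (((a.1 - b.1 : ℕ) : ℝ) + ((a.2 - b.2 : ℕ) : ℝ) +
          (up (b :: l) : ℝ)))) =
        Real.exp (-(θ * ((a.1 - b.1 : ℕ) : ℝ))) * Real.exp (-(θ * ((a.2 - b.2 : ℕ) : ℝ))) *
        Real.exp (-(θ * (up (b :: l) : ℝ))) := by
        rw [← Real.exp_add, ← Real.exp_add]
        congr 1
        ring
      rw [e1, e2]
      ring

/-- lower bound for the weight -/
theorem one_le_wt {θ lam : ℝ} (hθ : 0 ≤ θ) (hl : 1 ≤ lam) (N m a : ℕ) (l : List (ℕ × ℕ))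
    (hN : ∀ z ∈ l, z.1 ≤ N ∧ z.2 ≤ N) (hc : cst l ≤ m) (ha : a ≤ an l) :
    1 ≤ Real.exp (2 * θ * N + (1 + θ) * m) * (lam⁻¹) ^ a * wt θ lam l := by
  have hup : up l ≤ 2 * N + m := by
    cases l with
    | nil => simp [up]
    | cons b l =>
      have h1 := up_le b l
      have h2 := hN b (by simp)
      omega
  rw [wt_eq]
  have h1 : 1 ≤ (lam⁻¹) ^ a * lam ^ an l := by
    rw [inv_pow, ← div_eq_inv_mul]
    rw [one_le_div (by positivity)]
    exact pow_le_pow_right₀ hl ha
  have h2 : 1 ≤ Real.exp (2 * θ * N + (1 + θ) * m) * (Real.exp (-(cst l : ℝ)) *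
      Real.exp (-(θ * (up l : ℝ)))) := by
    rw [← Real.exp_add, ← Real.exp_add]
    apply Real.one_le_exp
    have h3 : (cst l : ℝ) ≤ m := by exact_mod_cast hc
    have h4 : (up l : ℝ) ≤ 2 * N + m := by exact_mod_cast hup
    nlinarith
  calc (1 : ℝ) = 1 * 1 := (one_mul 1).symm
    _ ≤ ((lam⁻¹) ^ a * lam ^ an l) * (Real.exp (2 * θ * N + (1 + θ) * m) *
        (Real.exp (-(cst l : ℝ)) * Real.exp (-(θ * (up l : ℝ))))) :=
      mul_le_mul h1 h2 zero_le_one (by linarith)
    _ = _ := by ring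

/-! ### sums of the weights -/

theorem sum_geo_le (x : ℝ) (h0 : 0 ≤ x) (h1 : x < 1) (M : ℕ) :
    ∑ k ∈ Finset.range M, x ^ k ≤ (1 - x)⁻¹ := by
  rw [← tsum_geometric_of_lt_one h0 h1]
  exact (summable_geometric_of_lt_one h0 h1).sum_le_tsum _ (fun i _ => by positivity)

theorem sum_down (b M : ℕ) :
    ∑ a ∈ (Finset.range M).filter (fun a => a ≤ b), Real.exp (-((b - a : ℕ) : ℝ)) ≤ 2 := by
  have h1 : ∑ a ∈ (Finset.range M).filter (fun a => a ≤ b), Real.exp (-((b - a : ℕ) : ℝ)) ≤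
      ∑ k ∈ Finset.range (b + 1), Real.exp (-1) ^ k := by
    have h2 : ∀ a ∈ (Finset.range M).filter (fun a => a ≤ b), Real.exp (-((b - a : ℕ) : ℝ)) =
        (fun k => Real.exp (-1) ^ k) ((fun a => b - a) a) := by
      intro a _
      simp only
      rw [← Real.exp_nat_mul]
      congr 1
      ring
    rw [Finset.sum_congr rfl h2, ← Finset.sum_image (f := fun k => Real.exp (-1) ^ k)
      (g := fun a => b - a)]
    · apply Finset.sum_le_sum_of_subset_of_nonneg
      · intro k hk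
        rw [Finset.mem_image] at hk
        obtain ⟨a, -, rfl⟩ := hk
        rw [Finset.mem_range]
        omega
      · intro i _ _
        positivity
    · intro a ha c hc hac
      simp only [Finset.coe_filter, Finset.mem_range, Set.mem_ofPred_eq] at ha hc hac
      omega
  refine h1.trans ((sum_geo_le _ (by positivity) (by
    rw [Real.exp_lt_one_iff]; norm_num) _).trans ?_)
  have h3 : Real.exp (-1) ≤ 1 / 2 := by
    rw [Real.exp_neg, inv_le_comm₀ (by positivity) (by norm_num)]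
    have := Real.add_one_le_exp (1 : ℝ)
    norm_num
    linarith
  rw [inv_le_comm₀ (by linarith) (by norm_num)]
  norm_num
  linarith

theorem sum_up {θ : ℝ} (hθ : 0 < θ) (b M : ℕ) :
    ∑ a ∈ (Finset.range M).filter (fun a => ¬ a ≤ b), Real.exp (-(θ * ((a - b : ℕ) : ℝ))) ≤
      1 / θ := by
  have hx1 : Real.exp (-θ) < 1 := by rw [Real.exp_lt_one_iff]; linarith
  have h1 : ∑ a ∈ (Finset.range M).filter (fun a => ¬ a ≤ b), Real.exp (-(θ * ((a - b : ℕ) : ℝ))) ≤
      ∑ k ∈ Finset.range M, Real.exp (-θ) * Real.exp (-θ) ^ k := by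
    have h2 : ∀ a ∈ (Finset.range M).filter (fun a => ¬ a ≤ b),
        Real.exp (-(θ * ((a - b : ℕ) : ℝ))) =
        (fun k => Real.exp (-θ) * Real.exp (-θ) ^ k) ((fun a => a - b - 1) a) := by
      intro a ha
      simp only [Finset.mem_filter] at ha
      simp only
      rw [← pow_succ', ← Real.exp_nat_mul]
      congr 1
      have : a - b - 1 + 1 = a - b := by omega
      rw [this]
      ring
    rw [Finset.sum_congr rfl h2, ← Finset.sum_image
      (f := fun k => Real.exp (-θ) * Real.exp (-θ) ^ k) (g := fun a => a - b - 1)]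
    · apply Finset.sum_le_sum_of_subset_of_nonneg
      · intro k hk
        rw [Finset.mem_image] at hk
        obtain ⟨a, ha, rfl⟩ := hk
        simp only [Finset.mem_filter, Finset.mem_range] at ha
        rw [Finset.mem_range]
        omega
      · intro i _ _
        positivity
    · intro a ha c hc hac
      simp only [Finset.coe_filter, Finset.mem_range, Set.mem_ofPred_eq] at ha hc hac
      omega
  refine h1.trans ?_
  rw [← Finset.mul_sum]
  have h2 := sum_geo_le (Real.exp (-θ)) (by positivity) hx1 M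
  refine (mul_le_mul_of_nonneg_left h2 (by positivity)).trans ?_
  rw [← div_eq_mul_inv, div_le_div_iff₀ (by linarith) hθ]
  -- `exp (-θ) * θ ≤ 1 - exp (-θ)`
  have h3 : Real.exp (-θ) * Real.exp θ = 1 := by rw [← Real.exp_add]; simp
  have h4 := Real.add_one_le_exp θ
  have h5 : 0 < Real.exp (-θ) := Real.exp_pos _
  nlinarith

theorem sum_g {θ lam : ℝ} (hθ : 0 < θ) (hl : 0 ≤ lam) (b M : ℕ) :
    ∑ a ∈ Finset.range M, g θ lam a b ≤ 1 / θ + 2 * lam := by
  rw [← Finset.sum_filter_add_sum_filter_not (Finset.range M) (fun a => a ≤ b)]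
  have h1 : ∑ a ∈ (Finset.range M).filter (fun a => a ≤ b), g θ lam a b =
      lam * ∑ a ∈ (Finset.range M).filter (fun a => a ≤ b), Real.exp (-((b - a : ℕ) : ℝ)) := by
    rw [Finset.mul_sum]
    refine Finset.sum_congr rfl fun a ha => ?_
    rw [Finset.mem_filter] at ha
    unfold g
    rw [if_pos ha.2]
  have h2 : ∑ a ∈ (Finset.range M).filter (fun a => ¬ a ≤ b), g θ lam a b =
      ∑ a ∈ (Finset.range M).filter (fun a => ¬ a ≤ b),
        Real.exp (-(θ * ((a - b : ℕ) : ℝ))) := by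
    refine Finset.sum_congr rfl fun a ha => ?_
    rw [Finset.mem_filter] at ha
    unfold g
    rw [if_neg ha.2]
  rw [h1, h2]
  have h3 := mul_le_mul_of_nonneg_left (sum_down b M) hl
  have h4 := sum_up hθ b M
  linarith


omit [DecidableEq E] in
theorem sum_step {θ lam : ℝ} (hθ : 0 < θ) (hl : 0 ≤ lam) (A : Finset E) (ps : E → ℕ × ℕ)
    (M K : ℕ) (hM : ∀ e ∈ A, (ps e).1 < M ∧ (ps e).2 < M)
    (hK : ∀ z, (A.filter (fun e => ps e = z)).card ≤ K) (b : ℕ × ℕ) :
    ∑ e ∈ A, g θ lam (ps e).1 b.1 * g θ lam (ps e).2 b.2 ≤ K * (1 / θ + 2 * lam) ^ 2 := by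
  have h1 : ∑ e ∈ A, g θ lam (ps e).1 b.1 * g θ lam (ps e).2 b.2 =
      ∑ z ∈ Finset.range M ×ˢ Finset.range M, ∑ e ∈ A.filter (fun e => ps e = z),
        g θ lam (ps e).1 b.1 * g θ lam (ps e).2 b.2 := by
    rw [Finset.sum_fiberwise_of_maps_to]
    intro e he
    rw [Finset.mem_product, Finset.mem_range, Finset.mem_range]
    exact hM e he
  have h2 : ∑ z ∈ Finset.range M ×ˢ Finset.range M, ∑ e ∈ A.filter (fun e => ps e = z),
        g θ lam (ps e).1 b.1 * g θ lam (ps e).2 b.2 ≤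
      ∑ z ∈ Finset.range M ×ˢ Finset.range M, (K : ℝ) * (g θ lam z.1 b.1 * g θ lam z.2 b.2) := by
    refine Finset.sum_le_sum fun z _ => ?_
    have h3 : ∑ e ∈ A.filter (fun e => ps e = z), g θ lam (ps e).1 b.1 * g θ lam (ps e).2 b.2 =
        ((A.filter (fun e => ps e = z)).card : ℝ) * (g θ lam z.1 b.1 * g θ lam z.2 b.2) := by
      rw [Finset.sum_congr rfl (g := fun _ => g θ lam z.1 b.1 * g θ lam z.2 b.2), Finset.sum_const,
        nsmul_eq_mul]
      intro e he
      rw [Finset.mem_filter] at he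
      rw [he.2]
    rw [h3]
    exact mul_le_mul_of_nonneg_right (by exact_mod_cast hK z)
      (mul_nonneg (g_nonneg hl _ _) (g_nonneg hl _ _))
  rw [h1]
  refine h2.trans ?_
  rw [← Finset.mul_sum]
  refine mul_le_mul_of_nonneg_left ?_ (by positivity)
  rw [Finset.sum_product, pow_two]
  have h4 : ∑ x ∈ Finset.range M, ∑ y ∈ Finset.range M, g θ lam x b.1 * g θ lam y b.2 =
      (∑ x ∈ Finset.range M, g θ lam x b.1) * ∑ y ∈ Finset.range M, g θ lam y b.2 := by
    rw [Finset.sum_mul_sum]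
  have h5 : 0 ≤ ∑ y ∈ Finset.range M, g θ lam y b.2 := Finset.sum_nonneg fun _ _ => g_nonneg hl _ _
  simp only
  rw [h4]
  exact mul_le_mul (sum_g hθ hl _ _) (sum_g hθ hl _ _) h5 (by positivity)

theorem sum_wt {θ lam : ℝ} (hθ : 0 < θ) (hl : 0 ≤ lam) (A : Finset E) (ps : E → ℕ × ℕ)
    (M K : ℕ) (hM : ∀ e ∈ A, (ps e).1 < M ∧ (ps e).2 < M)
    (hK : ∀ z, (A.filter (fun e => ps e = z)).card ≤ K) (m : ℕ) :
    ∑ l ∈ LL A (m + 1), wt θ lam (l.map ps) ≤ A.card * (K * (1 / θ + 2 * lam) ^ 2) ^ m := by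
  induction m with
  | zero =>
    rw [sum_LL]
    simp [LL, wt]
  | succ m ih =>
    rw [sum_LL, Finset.sum_comm]
    have h1 : ∀ l ∈ LL A (m + 1), ∑ e ∈ A, wt θ lam ((e :: l).map ps) ≤
        (K * (1 / θ + 2 * lam) ^ 2) * wt θ lam (l.map ps) := by
      intro l hlm
      obtain ⟨h2, -⟩ := (mem_LL A (m + 1) l).1 hlm
      cases l with
      | nil => simp at h2
      | cons b l =>
        simp only [List.map_cons, wt]
        rw [← Finset.sum_mul]
        exact mul_le_mul_of_nonneg_right (sum_step hθ hl A ps M K hM hK (ps b))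
          (wt_nonneg hl _)
    refine (Finset.sum_le_sum h1).trans ?_
    rw [← Finset.mul_sum, pow_succ]
    have h3 : (0 : ℝ) ≤ K * (1 / θ + 2 * lam) ^ 2 := by positivity
    calc (K * (1 / θ + 2 * lam) ^ 2) * ∑ l ∈ LL A (m + 1), wt θ lam (l.map ps)
        ≤ (K * (1 / θ + 2 * lam) ^ 2) * (A.card * (K * (1 / θ + 2 * lam) ^ 2) ^ m) :=
          mul_le_mul_of_nonneg_left ih h3
      _ = _ := by ring

/-- **The number of lists.** -/
theorem card_LL {θ lam : ℝ} (hθ : 0 < θ) (hl : 1 ≤ lam) (A : Finset E) (ps : E → ℕ × ℕ)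
    (N K : ℕ) (hM : ∀ e ∈ A, (ps e).1 < N ∧ (ps e).2 < N)
    (hK : ∀ z, (A.filter (fun e => ps e = z)).card ≤ K) (m a : ℕ) :
    (((LL A (m + 1)).filter (fun l => cst (l.map ps) ≤ m + 1 ∧ a ≤ an (l.map ps))).card : ℝ) ≤
      Real.exp (2 * θ * N + (1 + θ) * (m + 1)) * (lam⁻¹) ^ a *
        (A.card * (K * (1 / θ + 2 * lam) ^ 2) ^ m) := by
  have h1 : (((LL A (m + 1)).filter
      (fun l => cst (l.map ps) ≤ m + 1 ∧ a ≤ an (l.map ps))).card : ℝ) ≤
      ∑ l ∈ LL A (m + 1), Real.exp (2 * θ * N + (1 + θ) * (m + 1)) * (lam⁻¹) ^ a *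
        wt θ lam (l.map ps) := by
    rw [Finset.card_eq_sum_ones, Nat.cast_sum]
    refine (Finset.sum_le_sum (fun l hlm => ?_)).trans
      (Finset.sum_le_sum_of_subset_of_nonneg (Finset.filter_subset _ _) (fun l _ _ => ?_))
    · rw [Finset.mem_filter] at hlm
      obtain ⟨h2, h3⟩ := (mem_LL A (m + 1) l).1 hlm.1
      have := one_le_wt hθ.le hl N (m + 1) a (l.map ps) (by
        intro z hz
        rw [List.mem_map] at hz
        obtain ⟨e, he, rfl⟩ := hz
        have := hM e (h3 e he)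
        omega) hlm.2.1 hlm.2.2
      push_cast at this ⊢
      exact this
    · have := wt_nonneg (θ := θ) (by linarith : (0 : ℝ) ≤ lam) (l.map ps)
      positivity
  refine h1.trans ?_
  rw [← Finset.mul_sum]
  exact mul_le_mul_of_nonneg_left (sum_wt hθ (by linarith) A ps N K hM hK m) (by positivity)

end Pool.Agent.X133.OP
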