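import Pool.Agent.X133.OP.Defs

/-!
# The cut bound
-/

set_option autoImplicit false

namespace Pool.Agent.X133.OP

/-- the label of an edge: its row (right edges) or its column (up edges) -/
def lab (e : Eg) : Bool × ℕ := if e.2.2 then (true, e.1) else (false, e.2.1)

/-- an edge leaves `W` -/
def Lv (W : Set (ℕ × ℕ)) (e : Eg) : Prop := tl e ∈ W ∧ hd e ∉ W

theorem hd_cases (e : Eg) : hd e = (e.1 + 1, e.2.1) ∨ hd e = (e.1, e.2.1 + 1) := by
  unfold hd
  split_ifs
  · exact Or.inr rfl
  · exact Or.inl rfl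

theorem lv_inj {W : Set (ℕ × ℕ)} (hW : ∀ u v : ℕ × ℕ, u.1 ≤ v.1 → u.2 ≤ v.2 → v ∈ W → u ∈ W)
    {e f : Eg} (he : Lv W e) (hf : Lv W f) (h : lab e = lab f) : e = f := by
  obtain ⟨x, y, b⟩ := e
  obtain ⟨x', y', b'⟩ := f
  cases b <;> cases b' <;> simp only [lab, Lv, tl, hd] at he hf h <;> simp at h he hf
  · subst h
    rcases lt_trichotomy x x' with h1 | h1 | h1
    · exact absurd (hW (x + 1, y) (x', y) h1 le_rfl hf.1) he.2
    · rw [h1]
    · exact absurd (hW (x' + 1, y) (x, y) h1 le_rfl he.1) hf.2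
  · subst h
    rcases lt_trichotomy y y' with h1 | h1 | h1
    · exact absurd (hW (x, y + 1) (x, y') le_rfl h1 hf.1) he.2
    · rw [h1]
    · exact absurd (hW (x, y' + 1) (x, y) le_rfl h1 he.1) hf.2

/-- a path from `S` to `T` leaves every set `W` which contains `S` and no point of `T` -/
theorem exists_lv {n : ℕ} {ω : Eg → Bool} {W : Set (ℕ × ℕ)} (hS : Sn n ⊆ W)
    (hT : ∀ v ∈ Tn n, v ∉ W) (l : List Eg) (hl : OpenPath n ω l) : ∃ e ∈ l, Lv W e := by
  obtain ⟨h0, -, hc, hs, ht⟩ := hl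
  by_contra hcon
  push Not at hcon
  have key : ∀ l : List Eg, (∀ e ∈ l, ¬ Lv W e) → l.IsChain (fun e f => hd e = tl f) →
      (∀ e ∈ l.head?, tl e ∈ W) → ∀ e ∈ l.getLast?, hd e ∈ W := by
    intro l
    induction l with
    | nil => intro _ _ _ e he; simp at he
    | cons a l ih =>
      intro h1 h2 h3 e he
      have ha : tl a ∈ W := h3 a (by simp)
      have ha2 : hd a ∈ W := by
        by_contra hh
        exact h1 a (by simp) ⟨ha, hh⟩
      cases l with
      | nil =>
        simp at he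
        subst he
        exact ha2
      | cons b l =>
        have h4 : hd a = tl b := by
          rw [List.isChain_cons_cons] at h2
          exact h2.1
        refine ih (fun e he => h1 e (List.mem_cons_of_mem _ he)) ?_ ?_ e ?_
        · rw [List.isChain_cons_cons] at h2
          exact h2.2
        · intro e he
          simp at he
          subst he
          rw [← h4]
          exact ha2
        · simpa using he
  obtain ⟨a, l', rfl⟩ := List.exists_cons_of_ne_nil h0
  have hlast : (a :: l').getLast? = some ((a :: l').getLast h0) := List.getLast?_eq_getLast_of_ne_nil h0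
  have h5 := key (a :: l') hcon hc (fun e he => hS (hs e he)) ((a :: l').getLast h0) hlast
  exact hT _ (ht ((a :: l').getLast h0) hlast) h5

/-- **The cut bound.** `u` is a list of closed edges whose initial vertices have strictly
increasing first and strictly decreasing second coordinates. -/
theorem cut {n : ℕ} (hn : 2 ≤ n) (ω : Eg → Bool) (u : List Eg)
    (hu : u.Pairwise (fun e f => e.1 < f.1 ∧ f.2.1 < e.2.1))
    (hu2 : ∀ e ∈ u, ω e = false ∧ 1 ≤ e.1 ∧ e.1 + 2 ≤ n ∧ 1 ≤ e.2.1 ∧ e.2.1 + 2 ≤ n)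
    (k : ℕ) (hk : Dis n ω k) : k + u.length ≤ 2 * (n - 1) := by
  classical
  obtain ⟨P, hP, hd'⟩ := hk
  obtain ⟨W, hW⟩ : ∃ W : Set (ℕ × ℕ), W = {v | v ∈ Sn n ∨ ∃ e ∈ u, v.1 ≤ e.1 ∧ v.2 ≤ e.2.1} :=
    ⟨_, rfl⟩
  have hdown : ∀ u v : ℕ × ℕ, u.1 ≤ v.1 → u.2 ≤ v.2 → v ∈ W → u ∈ W := by
    intro a b h1 h2 hb
    rw [hW] at hb ⊢
    rcases hb with hb | ⟨e, he, hb1, hb2⟩
    · left
      unfold Sn at hb ⊢
      simp only [Set.mem_ofPred_eq] at hb ⊢
      rcases hb with hb | hb
      · left; omega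
      · right; omega
    · right
      exact ⟨e, he, h1.trans hb1, h2.trans hb2⟩
  have hSW : Sn n ⊆ W := fun v hv => by rw [hW]; exact Or.inl hv
  have hWn : ∀ v ∈ W, v.1 + 2 ≤ n ∧ v.2 + 2 ≤ n := by
    intro v hv
    rw [hW] at hv
    rcases hv with hv | ⟨e, he, h1, h2⟩
    · unfold Sn at hv
      simp only [Set.mem_ofPred_eq] at hv
      omega
    · have := hu2 e he
      omega
  have hTW : ∀ v ∈ Tn n, v ∉ W := by
    intro v hv hvW
    have := hWn v hvW
    unfold Tn at hv
    simp only [Set.mem_ofPred_eq] at hv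
    omega
  -- the closed edges leave `W`
  have huLv : ∀ e ∈ u, Lv W e := by
    intro e he
    have hb := hu2 e he
    refine ⟨?_, ?_⟩
    · rw [hW]
      exact Or.inr ⟨e, he, le_rfl, le_rfl⟩
    · rw [hW]
      rintro (h1 | ⟨f, hf, h1, h2⟩)
      · rcases hd_cases e with h0 | h0 <;> rw [h0] at h1 <;>
          simp only [Sn, Set.mem_ofPred_eq] at h1 <;> omega
      · by_cases hef : e = f
        · subst hef
          rcases hd_cases e with h0 | h0 <;> rw [h0] at h1 h2 <;> simp only at h1 h2 <;> omega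
        · have h3 : (e.1 < f.1 ∧ f.2.1 < e.2.1) ∨ (f.1 < e.1 ∧ e.2.1 < f.2.1) := by
            have h5 : u.Pairwise (fun e f => (e.1 < f.1 ∧ f.2.1 < e.2.1) ∨
                (f.1 < e.1 ∧ e.2.1 < f.2.1)) := hu.imp fun {a b} h => Or.inl h
            have hsymm : Std.Symm (fun e f : Eg => (e.1 < f.1 ∧ f.2.1 < e.2.1) ∨
                (f.1 < e.1 ∧ e.2.1 < f.2.1)) := ⟨fun a b h => h.symm⟩
            exact h5.forall he hf hef
          rcases hd_cases e with h0 | h0 <;> rw [h0] at h1 h2 <;> simp only at h1 h2 <;> omega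
  -- the first leaving edge of each path
  choose g hg1 hg2 using fun i => exists_lv hSW hTW (P i) (hP i)
  have hginj : Function.Injective g := by
    intro i j hij
    by_contra hne
    exact hd' i j hne (hg1 i) (by rw [hij]; exact hg1 j)
  have hgo : ∀ i, ω (g i) = true := fun i => ((hP i).2.1 _ (hg1 i)).1
  -- labels
  have hlabn : ∀ e, Lv W e → (lab e).2 < n - 1 := by
    intro e he
    have := hWn _ he.1
    unfold lab
    unfold tl at this
    split_ifs <;> simp only at this ⊢ <;> omega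
  obtain ⟨A, hA⟩ : ∃ A : Finset (Bool × ℕ), A = Finset.univ.image (fun i => lab (g i)) := ⟨_, rfl⟩
  obtain ⟨B, hB⟩ : ∃ B : Finset (Bool × ℕ), B = (u.map lab).toFinset := ⟨_, rfl⟩
  have hAc : A.card = k := by
    rw [hA, Finset.card_image_of_injective, Finset.card_univ, Fintype.card_fin]
    intro i j hij
    exact hginj (lv_inj hdown (hg2 i) (hg2 j) hij)
  have hunod : u.Nodup := hu.imp fun {a b} h he => by subst he; omega
  have hBc : B.card = u.length := by
    rw [hB, List.toFinset_card_of_nodup, List.length_map]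
    exact (List.nodup_map_iff_inj_on hunod).2
      (fun e he f hf h => lv_inj hdown (huLv e he) (huLv f hf) h)
  have hdisj : Disjoint A B := by
    rw [Finset.disjoint_left]
    intro x hxA hxB
    rw [hA, Finset.mem_image] at hxA
    rw [hB, List.mem_toFinset, List.mem_map] at hxB
    obtain ⟨i, -, hi⟩ := hxA
    obtain ⟨e, he, hex⟩ := hxB
    have h1 := lv_inj hdown (hg2 i) (huLv e he) (hi.trans hex.symm)
    have h2 := hgo i
    rw [h1, (hu2 e he).1] at h2
    exact absurd h2 (by simp)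
  have hsub : A ∪ B ⊆ (Finset.univ : Finset Bool) ×ˢ Finset.range (n - 1) := by
    intro x hx
    rw [Finset.mem_union] at hx
    rw [Finset.mem_product, Finset.mem_range]
    refine ⟨Finset.mem_univ _, ?_⟩
    rcases hx with hx | hx
    · rw [hA, Finset.mem_image] at hx
      obtain ⟨i, -, rfl⟩ := hx
      exact hlabn _ (hg2 i)
    · rw [hB, List.mem_toFinset, List.mem_map] at hx
      obtain ⟨e, he, rfl⟩ := hx
      exact hlabn _ (huLv e he)
  have h6 := Finset.card_le_card hsub
  rw [Finset.card_union_of_disjoint hdisj, hAc, hBc, Finset.card_product, Finset.card_range] at h6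
  simpa using h6

theorem bdd (n : ℕ) (hn : 2 ≤ n) (ω : Eg → Bool) : BddAbove {k | Dis n ω k} :=
  ⟨2 * (n - 1), fun k hk => by
    have := cut hn ω [] List.Pairwise.nil (by simp) k hk
    simpa using this⟩

theorem le_Vn {n : ℕ} (hn : 2 ≤ n) {ω : Eg → Bool} {k : ℕ} (hk : Dis n ω k) : k ≤ Vn n ω :=
  le_csSup (bdd n hn ω) hk

theorem dis_zero (n : ℕ) (ω : Eg → Bool) : Dis n ω 0 := ⟨fun i => i.elim0, fun i => i.elim0,
  fun i => i.elim0⟩

theorem dis_Vn {n : ℕ} (hn : 2 ≤ n) (ω : Eg → Bool) : Dis n ω (Vn n ω) :=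
  Nat.sSup_mem ⟨0, dis_zero n ω⟩ (bdd n hn ω)

theorem Vn_le {n : ℕ} (hn : 2 ≤ n) (ω : Eg → Bool) : Vn n ω ≤ 2 * (n - 1) := by
  have := cut hn ω [] List.Pairwise.nil (by simp) _ (dis_Vn hn ω)
  simpa using this

end Pool.Agent.X133.OP
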