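import Mathlib

/-!
# Oriented percolation flows: definitions
-/

set_option autoImplicit false

namespace Pool.Agent.X133.OP

/-- the edges: `(x, y, false)` goes from `(x, y)` to `(x + 1, y)`, `(x, y, true)` goes from `(x, y)`
to `(x, y + 1)` -/
abbrev Eg : Type := ℕ × ℕ × Bool

/-- the initial vertex of an edge -/
def tl (e : Eg) : ℕ × ℕ := (e.1, e.2.1)

/-- the final vertex of an edge -/
def hd (e : Eg) : ℕ × ℕ := if e.2.2 then (e.1, e.2.1 + 1) else (e.1 + 1, e.2.1)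

/-- the set `S` of the sources in `{0, …, n - 1}²` -/
def Sn (n : ℕ) : Set (ℕ × ℕ) := {v | (v.1 = 0 ∧ v.2 + 2 ≤ n) ∨ (v.2 = 0 ∧ v.1 + 2 ≤ n)}

/-- the set `T` of the targets in `{0, …, n - 1}²` -/
def Tn (n : ℕ) : Set (ℕ × ℕ) := {v | (v.2 + 1 = n ∧ v.1 < n) ∨ (v.1 + 1 = n ∧ v.2 < n)}

/-- `l` is an oriented path of open edges of `{0, …, n - 1}²` from a vertex of `S` to a vertex of
`T` -/
def OpenPath (n : ℕ) (ω : Eg → Bool) (l : List Eg) : Prop :=
  l ≠ [] ∧ (∀ e ∈ l, ω e = true ∧ (hd e).1 < n ∧ (hd e).2 < n) ∧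
    l.IsChain (fun e f => hd e = tl f) ∧ (∀ e ∈ l.head?, tl e ∈ Sn n) ∧
    (∀ e ∈ l.getLast?, hd e ∈ Tn n)

/-- there are `k` pairwise edge-disjoint open paths from `S` to `T` -/
def Dis (n : ℕ) (ω : Eg → Bool) (k : ℕ) : Prop :=
  ∃ P : Fin k → List Eg, (∀ i, OpenPath n ω (P i)) ∧ ∀ i j, i ≠ j → (P i).Disjoint (P j)

/-- the maximal number of pairwise edge-disjoint open paths from `S` to `T` -/
noncomputable def Vn (n : ℕ) (ω : Eg → Bool) : ℕ := sSup {k | Dis n ω k}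

end Pool.Agent.X133.OP
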