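import Pool.Agent.X133.OP.Count

/-!
# The first moment bound
-/

set_option autoImplicit false

open scoped BigOperators
open MeasureTheory

namespace Pool.Agent.X133.OP

variable {E : Type} [DecidableEq E]

theorem exp_three_half : Real.exp (3 / 2) ≤ 5 := by
  have h1 : Real.exp (3 / 2) ^ 2 = Real.exp 1 ^ 3 := by
    rw [← Real.exp_nat_mul, ← Real.exp_nat_mul]
    norm_num
  have h2 := Real.exp_one_lt_d9
  have h3 : Real.exp 1 ^ 3 ≤ 25 := by
    have h4 : Real.exp 1 ^ 3 ≤ 2.7182818286 ^ 3 :=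
      pow_le_pow_left₀ (Real.exp_pos _).le h2.le 3
    refine h4.trans ?_
    norm_num
  nlinarith [Real.exp_pos (3 / 2 : ℝ)]

/-- long lists -/
theorem cntA {ρ : ℝ} (h0 : 0 < ρ) (h1 : Real.sqrt ρ ≤ 1 / 48) (A : Finset E) (ps : E → ℕ × ℕ)
    (N : ℕ) (hM : ∀ e ∈ A, (ps e).1 < N ∧ (ps e).2 < N)
    (hK : ∀ z, (A.filter (fun e => ps e = z)).card ≤ 2) (m : ℕ) :
    (((LL A (m + 1)).filter (fun l => cst (l.map ps) ≤ m + 1 ∧ 0 ≤ an (l.map ps))).card : ℝ) *
      ρ ^ (m + 1) ≤ A.card * Real.exp (48 * (Real.sqrt ρ * N)) * (1 / 8) ^ m := by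
  obtain ⟨s, hs⟩ : ∃ s, s = Real.sqrt ρ := ⟨_, rfl⟩
  rw [← hs] at h1 ⊢
  have hs0 : 0 < s := by rw [hs]; exact Real.sqrt_pos.2 h0
  have hs2 : s * s = ρ := by rw [hs]; exact Real.mul_self_sqrt h0.le
  have h2 := card_LL (θ := 24 * s) (lam := 1) (by positivity) le_rfl A ps N 2 hM hK m 0
  rw [pow_zero, mul_one] at h2
  push_cast at h2
  have e1 : (1 / (24 * s) + 2 * 1 : ℝ) ≤ 2 / (24 * s) := by
    have : (2 : ℝ) * 1 ≤ 1 / (24 * s) := by
      rw [le_div_iff₀ (by positivity)]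
      linarith
    have h3 : (2 : ℝ) / (24 * s) = 1 / (24 * s) + 1 / (24 * s) := by ring
    linarith
  have e2 : (2 * (1 / (24 * s) + 2 * 1) ^ 2 : ℝ) ≤ 1 / (72 * ρ) := by
    have h3 : (1 / (24 * s) + 2 * 1 : ℝ) ^ 2 ≤ (2 / (24 * s)) ^ 2 :=
      pow_le_pow_left₀ (by positivity) e1 2
    have h4 : (2 * (2 / (24 * s)) ^ 2 : ℝ) = 1 / (72 * ρ) := by
      rw [← hs2]
      field_simp
      norm_num
    linarith
  have e3 : Real.exp (2 * (24 * s) * N + (1 + 24 * s) * (m + 1)) ≤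
      Real.exp (48 * (s * N)) * 5 ^ (m + 1) := by
    have h3 : 2 * (24 * s) * N + (1 + 24 * s) * (m + 1) ≤ 48 * (s * N) + ((m + 1 : ℕ) : ℝ) * (3 / 2) := by
      push_cast
      nlinarith
    refine (Real.exp_le_exp.2 h3).trans ?_
    rw [Real.exp_add, Real.exp_nat_mul]
    exact mul_le_mul_of_nonneg_left (pow_le_pow_left₀ (Real.exp_pos _).le exp_three_half _)
      (Real.exp_pos _).le
  have e4 : (2 * (1 / (24 * s) + 2 * 1) ^ 2 : ℝ) ^ m ≤ (1 / (72 * ρ)) ^ m :=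
    pow_le_pow_left₀ (by positivity) e2 m
  have hρ1 : 5 * ρ ≤ 1 := by nlinarith
  calc _ ≤ (Real.exp (2 * (24 * s) * N + (1 + 24 * s) * (m + 1)) *
        (A.card * (2 * (1 / (24 * s) + 2 * 1) ^ 2) ^ m)) * ρ ^ (m + 1) :=
        mul_le_mul_of_nonneg_right h2 (by positivity)
    _ ≤ ((Real.exp (48 * (s * N)) * 5 ^ (m + 1)) * (A.card * (1 / (72 * ρ)) ^ m)) * ρ ^ (m + 1) := by
        gcongr
    _ = A.card * Real.exp (48 * (s * N)) * (5 / 72) ^ m * (5 * ρ) := by
        rw [pow_succ, pow_succ, div_pow, div_pow, mul_pow, one_pow]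
        field_simp
    _ ≤ A.card * Real.exp (48 * (s * N)) * (1 / 8) ^ m * 1 := by
        have e5 : (5 / 72 : ℝ) ^ m ≤ (1 / 8) ^ m :=
          pow_le_pow_left₀ (by norm_num) (by norm_num) m
        exact mul_le_mul (mul_le_mul_of_nonneg_left e5 (by positivity)) hρ1 (by positivity)
          (by positivity)
    _ = _ := by rw [mul_one]

/-- lists with many steps without increase -/
theorem cntB {ρ : ℝ} (h0 : 0 < ρ) (h1 : Real.sqrt ρ ≤ 1 / 48) (A : Finset E) (ps : E → ℕ × ℕ)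
    (N : ℕ) (hM : ∀ e ∈ A, (ps e).1 < N ∧ (ps e).2 < N)
    (hK : ∀ z, (A.filter (fun e => ps e = z)).card ≤ 2) (m a : ℕ) :
    (((LL A (m + 1)).filter (fun l => cst (l.map ps) ≤ m + 1 ∧ a ≤ an (l.map ps))).card : ℝ) *
      ρ ^ (m + 1) ≤ A.card * Real.exp (2 * (Real.sqrt ρ * N)) * (2 * Real.sqrt ρ) ^ a * 40 ^ m := by
  obtain ⟨s, hs⟩ : ∃ s, s = Real.sqrt ρ := ⟨_, rfl⟩
  rw [← hs] at h1 ⊢
  have hs0 : 0 < s := by rw [hs]; exact Real.sqrt_pos.2 h0
  have hs2 : s * s = ρ := by rw [hs]; exact Real.mul_self_sqrt h0.le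
  have hl1 : 1 ≤ 1 / (2 * s) := by
    rw [le_div_iff₀ (by positivity)]
    linarith
  have h2 := card_LL (θ := s) (lam := 1 / (2 * s)) hs0 hl1 A ps N 2 hM hK m a
  push_cast at h2
  have e0 : (1 / (2 * s))⁻¹ = 2 * s := by rw [one_div, inv_inv]
  rw [e0] at h2
  have e2 : (2 * (1 / s + 2 * (1 / (2 * s))) ^ 2 : ℝ) = 8 / ρ := by
    rw [← hs2]
    field_simp
    norm_num
  rw [e2] at h2
  have e3 : Real.exp (2 * s * N + (1 + s) * (m + 1)) ≤
      Real.exp (2 * (s * N)) * 5 ^ (m + 1) := by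
    have h3 : 2 * s * N + (1 + s) * (m + 1) ≤ 2 * (s * N) + ((m + 1 : ℕ) : ℝ) * (3 / 2) := by
      push_cast
      nlinarith
    refine (Real.exp_le_exp.2 h3).trans ?_
    rw [Real.exp_add, Real.exp_nat_mul]
    exact mul_le_mul_of_nonneg_left (pow_le_pow_left₀ (Real.exp_pos _).le exp_three_half _)
      (Real.exp_pos _).le
  have hρ1 : 5 * ρ ≤ 1 := by nlinarith
  calc _ ≤ (Real.exp (2 * s * N + (1 + s) * (m + 1)) * (2 * s) ^ a *
        (A.card * (8 / ρ) ^ m)) * ρ ^ (m + 1) :=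
        mul_le_mul_of_nonneg_right h2 (by positivity)
    _ ≤ ((Real.exp (2 * (s * N)) * 5 ^ (m + 1)) * (2 * s) ^ a * (A.card * (8 / ρ) ^ m)) *
        ρ ^ (m + 1) := by
        gcongr
    _ = A.card * Real.exp (2 * (s * N)) * (2 * s) ^ a * 40 ^ m * (5 * ρ) := by
        have : (40 : ℝ) ^ m = 5 ^ m * 8 ^ m := by rw [← mul_pow]; norm_num
        rw [pow_succ, pow_succ, div_pow, this]
        field_simp
    _ ≤ A.card * Real.exp (2 * (s * N)) * (2 * s) ^ a * 40 ^ m * 1 := by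
        gcongr
    _ = _ := by rw [mul_one]

/-- union bound -/
theorem union_LL {Ω : Type} [MeasurableSpace Ω] (P : Measure Ω) [IsProbabilityMeasure P]
    (Bad : List E → Set Ω) {ρ : ℝ} (hBad : ∀ l, P.real (Bad l) ≤ ρ ^ l.length)
    (A : Finset E) (m : ℕ) (Q : List E → Prop) [DecidablePred Q] :
    P.real {ω | ∃ l : List E, l.length = m ∧ (∀ e ∈ l, e ∈ A) ∧ Q l ∧ ω ∈ Bad l} ≤
      (((LL A m).filter Q).card : ℝ) * ρ ^ m := by
  have h1 : {ω | ∃ l : List E, l.length = m ∧ (∀ e ∈ l, e ∈ A) ∧ Q l ∧ ω ∈ Bad l} =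
      ⋃ l ∈ (LL A m).filter Q, Bad l := by
    ext ω
    simp only [Set.mem_ofPred_eq, Set.mem_iUnion, Finset.mem_filter, mem_LL, exists_prop]
    constructor
    · rintro ⟨l, a, b, c, d⟩
      exact ⟨l, ⟨⟨a, b⟩, c⟩, d⟩
    · rintro ⟨l, ⟨⟨a, b⟩, c⟩, d⟩
      exact ⟨l, a, b, c, d⟩
  rw [h1]
  refine (measureReal_biUnion_finset_le _ _).trans ?_
  rw [← nsmul_eq_mul, ← Finset.sum_const]
  refine Finset.sum_le_sum fun l hl => ?_
  rw [Finset.mem_filter, mem_LL] at hl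
  have := hBad l
  rwa [hl.1.1] at this

/-- **The first moment bound.** -/
theorem first_moment {Ω : Type} [MeasurableSpace Ω] (P : Measure Ω) [IsProbabilityMeasure P]
    (Bad : List E → Set Ω) {ρ δ : ℝ} (hρ : 0 < ρ) (hδ : 0 < δ)
    (h1 : Real.sqrt ρ ≤ 1 / 48) (h2 : 2 * Real.sqrt ρ ≤ Real.exp (-(99 / δ)))
    (hBad : ∀ l, P.real (Bad l) ≤ ρ ^ l.length)
    (A : Finset E) (ps : E → ℕ × ℕ)
    (N : ℕ) (hM : ∀ e ∈ A, (ps e).1 < N ∧ (ps e).2 < N)
    (hK : ∀ z, (A.filter (fun e => ps e = z)).card ≤ 2) (M a R : ℕ)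
    (hMx : 24 * (Real.sqrt ρ * N) ≤ M) (hMx2 : M ≤ 24 * (Real.sqrt ρ * N) + 1)
    (ha : δ * (Real.sqrt ρ * N) ≤ a) :
    P.real {ω | ∃ l : List E, l ≠ [] ∧ l.length ≤ R ∧ (∀ e ∈ l, e ∈ A) ∧
      cst (l.map ps) ≤ l.length ∧ ω ∈ Bad l ∧ (M < l.length ∨ a ≤ an (l.map ps))} ≤
      60 * A.card * Real.exp (-(Real.sqrt ρ * N)) := by
  obtain ⟨s, hs⟩ : ∃ s, s = Real.sqrt ρ := ⟨_, rfl⟩
  obtain ⟨x, hx⟩ : ∃ x, x = s * N := ⟨_, rfl⟩
  rw [← hs, ← hx] at hMx hMx2 ha ⊢
  have hs0 : 0 < s := by rw [hs]; exact Real.sqrt_pos.2 hρ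
  have hx0 : 0 ≤ x := by rw [hx]; positivity
  -- the pieces
  obtain ⟨S1, hS1⟩ : ∃ S1 : ℕ → Set Ω, S1 = fun m => {ω | ∃ l : List E, l.length = m + 1 ∧
    (∀ e ∈ l, e ∈ A) ∧ (cst (l.map ps) ≤ m + 1 ∧ 0 ≤ an (l.map ps)) ∧ ω ∈ Bad l} := ⟨_, rfl⟩
  obtain ⟨S2, hS2⟩ : ∃ S2 : ℕ → Set Ω, S2 = fun m => {ω | ∃ l : List E, l.length = m + 1 ∧
    (∀ e ∈ l, e ∈ A) ∧ (cst (l.map ps) ≤ m + 1 ∧ a ≤ an (l.map ps)) ∧ ω ∈ Bad l} := ⟨_, rfl⟩
  have hsub : {ω | ∃ l : List E, l ≠ [] ∧ l.length ≤ R ∧ (∀ e ∈ l, e ∈ A) ∧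
      cst (l.map ps) ≤ l.length ∧ ω ∈ Bad l ∧ (M < l.length ∨ a ≤ an (l.map ps))} ⊆
      (⋃ m ∈ (Finset.range R).filter (fun m => M ≤ m), S1 m) ∪ ⋃ m ∈ Finset.range M, S2 m := by
    rintro ω ⟨l, hl0, hlR, hlA, hc, hb, hor⟩
    have hpos : 0 < l.length := List.length_pos_iff.2 hl0
    obtain ⟨m, hm⟩ : ∃ m, l.length = m + 1 := ⟨l.length - 1, by omega⟩
    by_cases hmM : M ≤ m
    · left
      simp only [Set.mem_iUnion, Finset.mem_filter, Finset.mem_range]
      refine ⟨m, ⟨by omega, hmM⟩, ?_⟩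
      rw [hS1]
      exact ⟨l, hm, hlA, ⟨by omega, Nat.zero_le _⟩, hb⟩
    · right
      simp only [Set.mem_iUnion, Finset.mem_range]
      refine ⟨m, by omega, ?_⟩
      rw [hS2]
      refine ⟨l, hm, hlA, ⟨by omega, ?_⟩, hb⟩
      rcases hor with h | h
      · omega
      · exact h
  have b1 : ∀ m, P.real (S1 m) ≤ A.card * Real.exp (48 * x) * (1 / 8) ^ m := by
    intro m
    have := cntA hρ h1 A ps N hM hK m
    rw [← hs, ← hx] at this
    rw [hS1]
    exact (union_LL P Bad hBad A (m + 1) (fun l => cst (l.map ps) ≤ m + 1 ∧ 0 ≤ an (l.map ps))).trans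
      this
  have b2 : ∀ m, P.real (S2 m) ≤ A.card * Real.exp (2 * x) * (2 * s) ^ a * 40 ^ m := by
    intro m
    have := cntB hρ h1 A ps N hM hK m a
    rw [← hs, ← hx] at this
    rw [hS2]
    exact (union_LL P Bad hBad A (m + 1) (fun l => cst (l.map ps) ≤ m + 1 ∧ a ≤ an (l.map ps))).trans
      this
  -- sums
  have t1 : P.real (⋃ m ∈ (Finset.range R).filter (fun m => M ≤ m), S1 m) ≤
      2 * A.card * Real.exp (-x) := by
    refine (measureReal_biUnion_finset_le _ _).trans ?_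
    refine (Finset.sum_le_sum fun m _ => b1 m).trans ?_
    rw [← Finset.mul_sum]
    have g1 : ∑ m ∈ (Finset.range R).filter (fun m => M ≤ m), (1 / 8 : ℝ) ^ m ≤
        (1 / 8) ^ M * 2 := by
      have g2 : ∀ m ∈ (Finset.range R).filter (fun m => M ≤ m), (1 / 8 : ℝ) ^ m =
          (fun k => (1 / 8 : ℝ) ^ M * (1 / 8) ^ k) ((fun m => m - M) m) := by
        intro m hm
        rw [Finset.mem_filter] at hm
        simp only
        rw [← pow_add]
        congr 1
        omega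
      rw [Finset.sum_congr rfl g2, ← Finset.sum_image
        (f := fun k => (1 / 8 : ℝ) ^ M * (1 / 8) ^ k) (g := fun m => m - M)]
      · refine (Finset.sum_le_sum_of_subset_of_nonneg (t := Finset.range R) ?_ ?_).trans ?_
        · intro k hk
          rw [Finset.mem_image] at hk
          obtain ⟨m, hm, rfl⟩ := hk
          rw [Finset.mem_filter, Finset.mem_range] at hm
          rw [Finset.mem_range]
          omega
        · intro i _ _
          positivity
        · rw [← Finset.mul_sum]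
          refine mul_le_mul_of_nonneg_left ?_ (by positivity)
          refine (sum_geo_le (1 / 8) (by norm_num) (by norm_num) R).trans ?_
          norm_num
      · intro u hu w hw huw
        simp only [Finset.coe_filter, Finset.mem_range, Set.mem_ofPred_eq] at hu hw huw
        omega
    refine (mul_le_mul_of_nonneg_left g1 (by positivity)).trans ?_
    have g3 : (1 / 8 : ℝ) ^ M ≤ Real.exp (-(49 * x)) := by
      have g4 : Real.log (1 / 8) ≤ -(49 / 24) := by
        rw [one_div, Real.log_inv]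
        have : Real.log 8 = 3 * Real.log 2 := by
          rw [show (8 : ℝ) = 2 ^ 3 by norm_num, Real.log_pow]
          norm_num
        rw [this]
        have := Real.log_two_gt_d9
        norm_num at this ⊢
        linarith
      have g5 : (1 / 8 : ℝ) ^ M = Real.exp (M * Real.log (1 / 8)) := by
        rw [Real.exp_nat_mul, Real.exp_log (by norm_num)]
      rw [g5]
      apply Real.exp_le_exp.2
      have : (M : ℝ) * Real.log (1 / 8) ≤ M * (-(49 / 24)) :=
        mul_le_mul_of_nonneg_left g4 (by positivity)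
      linarith
    have g6 : Real.exp (48 * x) * Real.exp (-(49 * x)) = Real.exp (-x) := by
      rw [← Real.exp_add]
      congr 1
      ring
    calc (A.card : ℝ) * Real.exp (48 * x) * ((1 / 8) ^ M * 2)
        ≤ A.card * Real.exp (48 * x) * (Real.exp (-(49 * x)) * 2) := by gcongr
      _ = 2 * A.card * (Real.exp (48 * x) * Real.exp (-(49 * x))) := by ring
      _ = _ := by rw [g6]
  have t2 : P.real (⋃ m ∈ Finset.range M, S2 m) ≤ 55 * A.card * Real.exp (-x) := by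
    refine (measureReal_biUnion_finset_le _ _).trans ?_
    refine (Finset.sum_le_sum fun m _ => b2 m).trans ?_
    rw [← Finset.mul_sum]
    have g1 : ∑ m ∈ Finset.range M, (40 : ℝ) ^ m ≤ 40 ^ M := by
      have := geom_sum_eq (x := (40 : ℝ)) (by norm_num) M
      rw [this]
      have h40 : (0 : ℝ) < 40 ^ M := by positivity
      rw [div_le_iff₀ (by norm_num)]
      nlinarith
    have g2 : (40 : ℝ) ^ M ≤ 55 * Real.exp (96 * x) := by
      have h3 : (40 : ℝ) ≤ Real.exp 4 := by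
        have h4 : Real.exp 4 = Real.exp 1 ^ 4 := by rw [← Real.exp_nat_mul]; norm_num
        rw [h4]
        have h5 := Real.exp_one_gt_d9
        have h6 : (2.7182818283 : ℝ) ^ 4 ≤ Real.exp 1 ^ 4 :=
          pow_le_pow_left₀ (by norm_num) h5.le 4
        refine le_trans ?_ h6
        norm_num
      have h7 : Real.exp 4 ≤ 55 := by
        have h4 : Real.exp 4 = Real.exp 1 ^ 4 := by rw [← Real.exp_nat_mul]; norm_num
        rw [h4]
        have h5 := Real.exp_one_lt_d9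
        have h6 : Real.exp 1 ^ 4 ≤ (2.7182818286 : ℝ) ^ 4 :=
          pow_le_pow_left₀ (Real.exp_pos _).le h5.le 4
        refine h6.trans ?_
        norm_num
      calc (40 : ℝ) ^ M ≤ Real.exp 4 ^ M := pow_le_pow_left₀ (by norm_num) h3 M
        _ = Real.exp (M * 4) := (Real.exp_nat_mul 4 M).symm
        _ ≤ Real.exp (96 * x + 4) := Real.exp_le_exp.2 (by linarith)
        _ = Real.exp 4 * Real.exp (96 * x) := by rw [add_comm, Real.exp_add]
        _ ≤ _ := mul_le_mul_of_nonneg_right h7 (Real.exp_pos _).le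
    have g3 : (2 * s) ^ a ≤ Real.exp (-(99 * x)) := by
      rw [← hs] at h2
      calc (2 * s) ^ a ≤ Real.exp (-(99 / δ)) ^ a := pow_le_pow_left₀ (by positivity) h2 a
        _ = Real.exp (a * (-(99 / δ))) := (Real.exp_nat_mul _ a).symm
        _ ≤ _ := by
          apply Real.exp_le_exp.2
          have : 99 * x ≤ a * (99 / δ) := by
            rw [mul_div_assoc', le_div_iff₀ hδ]
            nlinarith
          linarith
    have g6 : Real.exp (2 * x) * Real.exp (-(99 * x)) * Real.exp (96 * x) = Real.exp (-x) := by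
      rw [← Real.exp_add, ← Real.exp_add]
      congr 1
      ring
    calc (A.card : ℝ) * Real.exp (2 * x) * (2 * s) ^ a * ∑ m ∈ Finset.range M, (40 : ℝ) ^ m
        ≤ A.card * Real.exp (2 * x) * Real.exp (-(99 * x)) * (55 * Real.exp (96 * x)) := by
          gcongr
          exact g1.trans g2
      _ = 55 * A.card * (Real.exp (2 * x) * Real.exp (-(99 * x)) * Real.exp (96 * x)) := by ring
      _ = _ := by rw [g6]
  refine (measureReal_mono hsub).trans ((measureReal_union_le _ _).trans ?_)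
  have h0 : (0 : ℝ) ≤ A.card * Real.exp (-x) := by positivity
  linarith

end Pool.Agent.X133.OP
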