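import Pool.Agent.X133.OP.LS
import Pool.Agent.X133.OP.Prob

/-!
# The mean of the longest strict chain
-/

set_option autoImplicit false

open scoped BigOperators ENNReal
open MeasureTheory ProbabilityTheory

namespace Pool.Agent.X133.OP

open Pool.Agent.W533.LP (V muY geoM Tc T G zero ex mean Sys0 Bulk Gr Tr)

theorem geoM_univ {q : ℝ} (h0 : 0 < q) (h1 : q < 1) : geoM q Set.univ = 1 := by
  obtain ⟨Ω, mΩ, μ, I, J, W, hS, hB⟩ := exists_sys q h0 h1
  have := hB.prob
  rw [← Pool.Agent.W999.LP.map_geo μ q _ (hB.meas (0, 0)) (hB.law (0, 0)),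
    Measure.map_apply (hB.meas (0, 0)) MeasurableSet.univ]
  simp

/-- the mean of the longest strict chain of a Bernoulli field -/
noncomputable def EL (N : ℕ) (q : ℝ) : ℝ :=
  ∫ η, (Ls N η : ℝ) ∂(Measure.pi fun _ : V N => Bq q)

theorem EL_nonneg (N : ℕ) (q : ℝ) : 0 ≤ EL N q := integral_nonneg fun _ => by positivity

theorem EL_geo {q : ℝ} (h0 : 0 < q) (h1 : q < 1) (N : ℕ) :
    EL N q = ∫ g, (Ls N (fun v => decide (1 ≤ g v)) : ℝ) ∂(muY q N) := by
  unfold EL
  have hm : Measurable (fun (g : V N → ℕ) (v : V N) => decide (1 ≤ g v)) :=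
    measurable_pi_lambda _ fun v => (Measurable.of_discrete (f := fun k : ℕ => decide (1 ≤ k))).comp
      (measurable_pi_apply v)
  rw [← law_geo h0.le h1 N (geoM_univ h0 h1), integral_map hm.aemeasurable
    (measurable_of_countable _).aestronglyMeasurable]

theorem EL_upper {q : ℝ} (h0 : 0 < q) (h1 : q < 1) (N : ℕ) :
    EL N q ≤ 2 * mean (Real.sqrt q) * N := by
  have hs : Real.sqrt q * Real.sqrt q = q := Real.mul_self_sqrt h0.le
  have hs0 : 0 < Real.sqrt q := Real.sqrt_pos.2 h0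
  have hs1 : Real.sqrt q < 1 := by nlinarith
  have hqs : q < Real.sqrt q := by nlinarith
  obtain ⟨Ω, mΩ, μ, I, J, W, hS, hB⟩ := exists_sys q h0 h1
  obtain ⟨hm, hmap, hT⟩ := map_bulk hB N
  obtain ⟨hG, hmean, -, -⟩ := varId μ q (Real.sqrt q) I J W h0 hqs hs1 hS N N
  have := hB.prob
  have hGi : Integrable (fun ω => (Gr I J W N N ω : ℝ)) μ :=
    hG.integrable (by norm_num)
  rw [EL_geo h0 h1, ← hmap, integral_map hm.aemeasurable
    (measurable_of_countable _).aestronglyMeasurable]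
  have h3 : ∫ ω, (Ls N (fun v : V N => decide (1 ≤ W v.1 v.2 ω)) : ℝ) ∂μ ≤
      ∫ ω, (Gr I J W N N ω : ℝ) ∂μ := by
    refine integral_mono_of_nonneg (Filter.Eventually.of_forall fun ω => by positivity) hGi
      (Filter.Eventually.of_forall fun ω => ?_)
    have h4 := Ls_le_Tc N (fun v : V N => W v.1 v.2 ω)
    rw [hT ω] at h4
    have h5 := h4.trans (Tr_le I J W N N ω)
    show ((Ls N (fun v : V N => decide (1 ≤ W v.1 v.2 ω)) : ℕ) : ℝ) ≤ ((Gr I J W N N ω : ℕ) : ℝ)
    exact_mod_cast h5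
  refine h3.trans ?_
  rw [hmean, div_sqrt_self h0]
  apply le_of_eq
  ring

/-- integrals of nonnegative functions which are large off a small set -/
theorem int_ge {Ω : Type*} [MeasurableSpace Ω] (P : Measure Ω) [IsProbabilityMeasure P]
    (f : Ω → ℝ) (hf : Integrable f P) (h0 : ∀ ω, 0 ≤ f ω) (B : Set Ω) (c β : ℝ) (hc : 0 ≤ c)
    (hB : P.real B ≤ β) (h : ∀ ω, ω ∉ B → c ≤ f ω) : c * (1 - β) ≤ ∫ ω, f ω ∂P := by
  have hm : MeasurableSet (toMeasurable P B) := measurableSet_toMeasurable P B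
  have h1 : P.real (toMeasurable P B) = P.real B := by
    rw [measureReal_def, measure_toMeasurable, measureReal_def]
  have h2 : ∫ ω, (toMeasurable P B)ᶜ.indicator (fun _ => c) ω ∂P ≤ ∫ ω, f ω ∂P := by
    refine integral_mono ((integrable_const c).indicator hm.compl) hf fun ω => ?_
    by_cases hω : ω ∈ toMeasurable P B
    · rw [Set.indicator_of_notMem (by simpa using hω)]
      exact h0 ω
    · rw [Set.indicator_of_mem (by simpa using hω)]
      exact h ω fun hc => hω (subset_toMeasurable P B hc)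
  rw [integral_indicator_const _ hm.compl, probReal_compl_eq_one_sub hm, h1, smul_eq_mul] at h2
  nlinarith

theorem an_nil : an [] = 0 := rfl

theorem EL_lower {q δ ε : ℝ} (h0 : 0 < q) (hδ : 0 < δ) (hε : 0 < ε)
    (h1 : Real.sqrt q ≤ 1 / 48) (h2 : 2 * Real.sqrt q ≤ Real.exp (-(99 / δ))) :
    ∃ n0 : ℕ, ∀ N ≥ n0,
      (2 * mean (Real.sqrt q) - δ * Real.sqrt q - ε) * N ≤ EL N q := by
  classical
  have hs : Real.sqrt q * Real.sqrt q = q := Real.mul_self_sqrt h0.le
  have hs0 : 0 < Real.sqrt q := Real.sqrt_pos.2 h0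
  have hq1 : q < 1 := by nlinarith
  obtain ⟨s, hss⟩ : ∃ s, s = Real.sqrt q := ⟨_, rfl⟩
  rw [← hss] at hs hs0 h1 h2
  -- the small number
  obtain ⟨t, ht⟩ : ∃ t, t = min (ε / 8) (1 / 2) := ⟨_, rfl⟩
  have ht0 : 0 < t := by rw [ht]; exact lt_min (by linarith) (by norm_num)
  have ht1 : t ≤ ε / 8 := by rw [ht]; exact min_le_left _ _
  have ht2 : t ≤ 1 / 2 := by rw [ht]; exact min_le_right _ _
  obtain ⟨n1, hn1⟩ := geo_lower q h0 hq1 t ht0
  have e1 : Filter.Tendsto (fun N : ℕ => (N : ℝ) ^ 2 * Real.exp (-(s * N))) Filter.atTop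
      (nhds 0) := by
    have h3 := (Real.tendsto_pow_mul_exp_neg_atTop_nhds_zero 2).comp
      ((Filter.tendsto_id.const_mul_atTop hs0).comp tendsto_natCast_atTop_atTop)
    have h4 := h3.const_mul (1 / s ^ 2)
    rw [mul_zero] at h4
    refine h4.congr fun N => ?_
    simp only [Function.comp, id]
    field_simp
  have e2 : ∀ᶠ N : ℕ in Filter.atTop, (N : ℝ) ^ 2 * Real.exp (-(s * N)) < t / 60 :=
    e1.eventually_lt_const (by positivity)
  have e3 : ∀ᶠ N : ℕ in Filter.atTop, 1 / t ≤ (N : ℝ) :=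
    tendsto_natCast_atTop_atTop.eventually_ge_atTop _
  obtain ⟨n0, hn0⟩ := Filter.eventually_atTop.1 (e2.and (e3.and (Filter.eventually_ge_atTop n1)))
  refine ⟨n0, fun N hN => ?_⟩
  obtain ⟨g1, g2, g3⟩ := hn0 N hN
  have hgl := hn1 N g3
  rw [← hss] at hgl ⊢
  rw [div_le_iff₀ ht0] at g2
  have hN0 : (0 : ℝ) < N := by
    by_contra hcon
    push Not at hcon
    nlinarith
  have : IsProbabilityMeasure (geoM q) := ⟨geoM_univ h0 hq1⟩
  have : IsProbabilityMeasure (muY q N) := by unfold muY; infer_instance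
  -- the bad set
  obtain ⟨M, hM⟩ : ∃ M : ℕ, M = ⌈24 * (s * N)⌉₊ := ⟨_, rfl⟩
  have hM1 : 24 * (s * N) ≤ M := by rw [hM]; exact Nat.le_ceil _
  have hM2 : (M : ℝ) ≤ 24 * (s * N) + 1 := by
    rw [hM]
    exact (Nat.ceil_lt_add_one (by positivity)).le
  obtain ⟨a, haa⟩ : ∃ a : ℕ, a = ⌈δ * (s * N)⌉₊ := ⟨_, rfl⟩
  have ha1 : δ * (s * N) ≤ a := by rw [haa]; exact Nat.le_ceil _
  have ha2 : (a : ℝ) ≤ δ * (s * N) + 1 := by
    rw [haa]
    exact (Nat.ceil_lt_add_one (by positivity)).le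
  have hfm := first_moment (E := V N) (muY q N) (fun l => {g | ∀ v, l.count v ≤ g v}) (ρ := q)
    (δ := δ) h0 hδ (by rw [← hss]; exact h1) (by rw [← hss]; exact h2)
    (fun l => (geo_list h0.le hq1 N l).le) Finset.univ ps N
    (fun e _ => ⟨e.1.2, e.2.2⟩)
    (fun z => by
      refine le_trans (Finset.card_le_one.2 ?_) one_le_two
      intro x hx y hy
      simp only [Finset.mem_filter, Finset.mem_univ, true_and] at hx hy
      exact ps_inj (hx.trans hy.symm))
    M a (M + 1) (by rw [← hss]; exact hM1) (by rw [← hss]; exact hM2) (by rw [← hss]; exact ha1)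
  rw [← hss] at hfm
  obtain ⟨B1, hB1⟩ : ∃ B1 : Set (V N → ℕ), B1 = {ω | ∃ l : List (V N), l ≠ [] ∧
      l.length ≤ M + 1 ∧ (∀ e ∈ l, e ∈ (Finset.univ : Finset (V N))) ∧
      cst (l.map ps) ≤ l.length ∧ ω ∈ {g : V N → ℕ | ∀ v, l.count v ≤ g v} ∧
      (M < l.length ∨ a ≤ an (l.map ps))} := ⟨_, rfl⟩
  rw [← hB1] at hfm
  have hcard : ((Finset.univ : Finset (V N)).card : ℝ) = (N : ℝ) ^ 2 := by
    rw [Finset.card_univ, Fintype.card_prod, Fintype.card_fin]
    push_cast
    ring
  rw [hcard] at hfm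
  have hb1 : (muY q N).real B1 ≤ t := hfm.trans (by linarith)
  obtain ⟨B2, hB2⟩ : ∃ B2 : Set (V N → ℕ), B2 = {W | (Tc W : ℝ) < (2 * mean s - t) * N} := ⟨_, rfl⟩
  rw [← hB2] at hgl
  have hbb : (muY q N).real (B1 ∪ B2) ≤ 2 * t := (measureReal_union_le _ _).trans (by linarith)
  have hgood : ∀ g, g ∉ B1 ∪ B2 → (2 * mean s - t) * N - a ≤ (Ls N (fun v => decide (1 ≤ g v)) : ℝ) := by
    intro g hg
    rw [Set.mem_union, not_or] at hg
    obtain ⟨l, l1, l2, l3, l4⟩ := Tc_list N g
    have k1 : ∀ l' : List (V N), l'.Sublist l → l' ≠ [] → l'.length ≤ M + 1 →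
        ¬ (M < l'.length ∨ a ≤ an (l'.map ps)) := by
      intro l' hl' hne hlen hcon
      apply hg.1
      rw [hB1]
      refine ⟨l', hne, hlen, fun _ _ => Finset.mem_univ _, ?_, ?_, hcon⟩
      · rw [cst_mono _ (l1.sublist (hl'.map _))]
        exact Nat.zero_le _
      · intro v
        exact (hl'.count_le v).trans (l2 v)
    have k2 : l.length ≤ M := by
      by_contra hcon
      push Not at hcon
      refine k1 (l.take (M + 1)) (List.take_sublist _ _) ?_ ?_ ?_
      · intro h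
        have := congrArg List.length h
        rw [List.length_take, List.length_nil] at this
        omega
      · rw [List.length_take]; omega
      · left
        rw [List.length_take]
        omega
    have k3 : an (l.map ps) ≤ a := by
      by_cases hl : l = []
      · subst hl
        rw [List.map_nil, an_nil]
        exact Nat.zero_le _
      · have := k1 l (List.Sublist.refl _) hl (by omega)
        rw [not_or] at this
        omega
    have k4 : (2 * mean s - t) * N ≤ (Tc g : ℝ) := by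
      have := hg.2
      rw [hB2] at this
      simpa using this
    have k5 : (Tc g : ℝ) ≤ (Ls N (fun v => decide (1 ≤ g v)) : ℝ) + a := by
      exact_mod_cast l4.trans (by omega)
    linarith
  -- conclusion
  have hmean : mean s ≤ 1 / 2 := by
    unfold Pool.Agent.W533.LP.mean
    rw [div_le_iff₀ (by linarith)]
    linarith
  by_cases hA : (2 * mean s - δ * s - ε) ≤ 0
  · exact (mul_nonpos_of_nonpos_of_nonneg hA hN0.le).trans (EL_nonneg _ _)
  push Not at hA
  have hc1 : (2 * mean s - δ * s - 2 * t) * N ≤ (2 * mean s - t) * N - a := by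
    nlinarith
  have hc0 : 0 ≤ (2 * mean s - δ * s - 2 * t) * N := by
    apply mul_nonneg _ hN0.le
    linarith
  have hI := int_ge (muY q N) (fun g => (Ls N (fun v => decide (1 ≤ g v)) : ℝ))
    (Integrable.of_bound (measurable_of_countable _).aestronglyMeasurable (N : ℝ)
      (Filter.Eventually.of_forall fun g => by
        rw [Real.norm_eq_abs, abs_of_nonneg (by positivity)]
        exact_mod_cast Ls_le N _))
    (fun g => by positivity) (B1 ∪ B2) ((2 * mean s - δ * s - 2 * t) * N) (2 * t) hc0 hbb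
    (fun g hg => hc1.trans (hgood g hg))
  rw [← EL_geo h0 hq1] at hI
  refine le_trans ?_ hI
  have hA1 : 2 * mean s - δ * s - 2 * t ≤ 1 := by nlinarith
  have : 2 * mean s - δ * s - ε ≤ (2 * mean s - δ * s - 2 * t) * (1 - 2 * t) := by nlinarith
  calc (2 * mean s - δ * s - ε) * N ≤ ((2 * mean s - δ * s - 2 * t) * (1 - 2 * t)) * N :=
        mul_le_mul_of_nonneg_right this hN0.le
    _ = _ := by ring

end Pool.Agent.X133.OP
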