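import Mathlib

/-!
# Long strictly monotone subsequences of a list of lattice points with few backward steps

Lists are in reversed time order: the head is the last point.
-/

set_option autoImplicit false

namespace Pool.Agent.X133.OP

/-- total amount of backward steps -/
def cst : List (ℕ × ℕ) → ℕ
  | [] => 0
  | [_] => 0
  | a :: b :: l => (b.1 - a.1) + (b.2 - a.2) + cst (b :: l)

/-- number of coordinate steps without increase -/
def an : List (ℕ × ℕ) → ℕ
  | [] => 0
  | [_] => 0
  | a :: b :: l => (if a.1 ≤ b.1 then 1 else 0) + (if a.2 ≤ b.2 then 1 else 0) + an (b :: l)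

theorem cnt_fst (s : List (ℕ × ℕ)) (hs : s.Pairwise (fun a b => b.1 < a.1)) (B c : ℕ)
    (hB : ∀ t ∈ s, t.1 ≤ B) : (s.filter (fun t => decide (c ≤ t.1))).length ≤ B + 1 - c := by
  have h1 : ((s.filter (fun t => decide (c ≤ t.1))).map Prod.fst).Nodup := by
    rw [List.Nodup, List.pairwise_map]
    exact (hs.filter _).imp fun {a b} h => (ne_of_lt h).symm
  have h2 : ((s.filter (fun t => decide (c ≤ t.1))).map Prod.fst).toFinset ⊆ Finset.Icc c B := by
    intro x hx
    rw [List.mem_toFinset, List.mem_map] at hx
    obtain ⟨t, ht, rfl⟩ := hx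
    rw [List.mem_filter] at ht
    rw [Finset.mem_Icc]
    exact ⟨by simpa using ht.2, hB t ht.1⟩
  have h3 := Finset.card_le_card h2
  rwa [List.toFinset_card_of_nodup h1, List.length_map, Nat.card_Icc] at h3

theorem cnt_snd (s : List (ℕ × ℕ)) (hs : s.Pairwise (fun a b => b.2 < a.2)) (B c : ℕ)
    (hB : ∀ t ∈ s, t.2 ≤ B) : (s.filter (fun t => decide (c ≤ t.2))).length ≤ B + 1 - c := by
  have h1 : ((s.filter (fun t => decide (c ≤ t.2))).map Prod.snd).Nodup := by
    rw [List.Nodup, List.pairwise_map]
    exact (hs.filter _).imp fun {a b} h => (ne_of_lt h).symm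
  have h2 : ((s.filter (fun t => decide (c ≤ t.2))).map Prod.snd).toFinset ⊆ Finset.Icc c B := by
    intro x hx
    rw [List.mem_toFinset, List.mem_map] at hx
    obtain ⟨t, ht, rfl⟩ := hx
    rw [List.mem_filter] at ht
    rw [Finset.mem_Icc]
    exact ⟨by simpa using ht.2, hB t ht.1⟩
  have h3 := Finset.card_le_card h2
  rwa [List.toFinset_card_of_nodup h1, List.length_map, Nat.card_Icc] at h3

theorem filter_split (s : List (ℕ × ℕ)) (a : ℕ × ℕ) :
    s.length ≤ (s.filter (fun t => decide (t.1 < a.1 ∧ t.2 < a.2))).length +
      (s.filter (fun t => decide (a.1 ≤ t.1))).length +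
      (s.filter (fun t => decide (a.2 ≤ t.2))).length := by
  induction s with
  | nil => simp
  | cons t s ih =>
    simp only [List.filter_cons, List.length_cons]
    by_cases h1 : t.1 < a.1
    · by_cases h2 : t.2 < a.2
      · rw [if_pos (by simp [h1, h2]), List.length_cons]
        split_ifs <;> (try simp only [List.length_cons]) <;> omega
      · rw [if_neg (by simp [h1, h2]), if_pos (c := decide (a.2 ≤ t.2) = true)
          (by simp; omega), List.length_cons]
        split_ifs <;> (try simp only [List.length_cons]) <;> omega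
    · rw [if_neg (by simp [h1]), if_pos (c := decide (a.1 ≤ t.1) = true)
          (by simp; omega), List.length_cons]
      split_ifs <;> (try simp only [List.length_cons]) <;> omega

/-- the strictly monotone stack -/
theorem stack (r : List (ℕ × ℕ)) : ∃ s : List (ℕ × ℕ),
    s.Pairwise (fun a b => b.1 < a.1 ∧ b.2 < a.2) ∧ (∀ z ∈ s, z ∈ r) ∧ s.head? = r.head? ∧
    r.length ≤ s.length + cst r + an r := by
  induction r with
  | nil => exact ⟨[], List.Pairwise.nil, fun z hz => hz, rfl, by simp [cst, an]⟩
  | cons a r ih =>
    cases r with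
    | nil => exact ⟨[a], List.pairwise_singleton _ _, fun z hz => hz, rfl, by simp [cst, an]⟩
    | cons b l =>
      obtain ⟨s, h1, h2, h3, h4⟩ := ih
      cases s with
      | nil => simp at h3
      | cons b' s' =>
        simp only [List.head?_cons, Option.some.injEq] at h3
        subst h3
        obtain ⟨s, hs⟩ : ∃ s, s = b' :: s' := ⟨_, rfl⟩
        rw [← hs] at h1 h2 h4
        have hb1 : ∀ t ∈ s, t.1 ≤ b'.1 := by
          intro t ht
          rw [hs] at ht h1
          rcases List.mem_cons.1 ht with rfl | ht
          · exact le_rfl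
          · exact ((List.pairwise_cons.1 h1).1 t ht).1.le
        have hb2 : ∀ t ∈ s, t.2 ≤ b'.2 := by
          intro t ht
          rw [hs] at ht h1
          rcases List.mem_cons.1 ht with rfl | ht
          · exact le_rfl
          · exact ((List.pairwise_cons.1 h1).1 t ht).2.le
        refine ⟨a :: s.filter (fun t => decide (t.1 < a.1 ∧ t.2 < a.2)), ?_, ?_, rfl, ?_⟩
        · rw [List.pairwise_cons]
          refine ⟨fun t ht => ?_, h1.filter _⟩
          rw [List.mem_filter] at ht
          simpa using ht.2
        · intro z hz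
          rcases List.mem_cons.1 hz with rfl | hz
          · exact List.mem_cons_self
          · rw [List.mem_filter] at hz
            exact List.mem_cons_of_mem _ (h2 z hz.1)
        · have e1 := cnt_fst s (h1.imp fun {x y} h => h.1) b'.1 a.1 hb1
          have e2 := cnt_snd s (h1.imp fun {x y} h => h.2) b'.2 a.2 hb2
          have e3 := filter_split s a
          simp only [List.length_cons, cst, an] at h4 ⊢
          have e4 : (b'.1 + 1 - a.1) = (b'.1 - a.1) + (if a.1 ≤ b'.1 then 1 else 0) := by
            split_ifs <;> omega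
          have e5 : (b'.2 + 1 - a.2) = (b'.2 - a.2) + (if a.2 ≤ b'.2 then 1 else 0) := by
            split_ifs <;> omega
          omega

end Pool.Agent.X133.OP
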