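import Pool.Agent.X133.OP.Flow
import Pool.Agent.X133.OP.Stk

/-!
# The optimal height function
-/

set_option autoImplicit false

namespace Pool.Agent.X133.OP

/-- the face before a (dual) edge -/
def st (n : ℕ) (e : Eg) : ℕ × ℕ := if e.2.2 then (e.1 - 1, n - 2 - e.2.1) else (e.1, n - 2 - e.2.1)

/-- the face after a (dual) edge -/
def en (n : ℕ) (e : Eg) : ℕ × ℕ := if e.2.2 then (e.1, n - 2 - e.2.1) else (e.1, n - 2 - e.2.1 + 1)

/-- the position of an edge -/
def pos (n : ℕ) (e : Eg) : ℕ × ℕ := (e.1, n - 2 - e.2.1)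

/-- the number of backward steps from `u` to `w` -/
def bk (u w : ℕ × ℕ) : ℕ := (u.1 - w.1) + (u.2 - w.2)

/-- the value of a list of edges (in reversed time order) seen from the face `z` -/
def val (n : ℕ) : ℕ × ℕ → List Eg → ℤ
  | _, [] => 0
  | z, e :: r => 1 - bk (en n e) z + val n (st n e) r

/-- lists of closed edges -/
def Cl (n : ℕ) (ω : Eg → Bool) (r : List Eg) : Prop := ∀ e ∈ r, Rel n e ∧ ω e = false

variable {n : ℕ} {ω : Eg → Bool}

theorem st_en {e : Eg} (he : Rel n e) : (st n e).1 + (st n e).2 + 1 = (en n e).1 + (en n e).2 := by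
  unfold Rel at he
  unfold st en
  split_ifs at he ⊢ <;> simp only <;> omega

theorem pos_le_en (n : ℕ) (e : Eg) : (pos n e).1 ≤ (en n e).1 ∧ (pos n e).2 ≤ (en n e).2 := by
  unfold pos en
  split_ifs <;> simp only <;> omega

theorem st_le_pos (n : ℕ) (e : Eg) : (st n e).1 ≤ (pos n e).1 ∧ (st n e).2 ≤ (pos n e).2 := by
  unfold pos st
  split_ifs <;> simp only <;> omega

theorem val_le (r : List Eg) (hr : Cl n ω r) (z : ℕ × ℕ) : val n z r ≤ z.1 + z.2 := by
  induction r generalizing z with
  | nil => simp only [val]; positivity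
  | cons e r ih =>
    have h1 := ih (fun f hf => hr f (List.mem_cons_of_mem _ hf)) (st n e)
    have h2 := st_en (hr e List.mem_cons_self).1
    simp only [val]
    unfold bk
    omega

theorem exists_G (n : ℕ) (ω : Eg → Bool) : ∃ G : ℕ × ℕ → ℤ,
    (∀ z r, Cl n ω r → val n z r ≤ G z) ∧ ∀ z, ∃ r, Cl n ω r ∧ val n z r = G z := by
  have h : ∀ z : ℕ × ℕ, ∃ g : ℤ, (∀ r, Cl n ω r → val n z r ≤ g) ∧ ∃ r, Cl n ω r ∧ val n z r = g := by
    intro z
    obtain ⟨g, ⟨r, hr1, hr2⟩, hg⟩ := Int.exists_greatest_of_bdd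
      (P := fun g => ∃ r, Cl n ω r ∧ val n z r = g)
      ⟨z.1 + z.2, fun g ⟨r, hr1, hr2⟩ => by rw [← hr2]; exact val_le r hr1 z⟩
      ⟨0, [], fun e he => by simp at he, rfl⟩
    exact ⟨g, fun r hr => hg _ ⟨r, hr, rfl⟩, r, hr1, hr2⟩
  choose G hG1 hG2 using h
  exact ⟨G, hG1, hG2⟩

theorem val_mono (r : List Eg) {z w : ℕ × ℕ} (h1 : z.1 ≤ w.1) (h2 : z.2 ≤ w.2) :
    val n z r ≤ val n w r := by
  cases r with
  | nil => simp [val]
  | cons e r =>
    simp only [val]
    unfold bk
    omega

theorem val_lip (r : List Eg) {z w : ℕ × ℕ} (h : w.1 + w.2 ≤ z.1 + z.2 + 1) (h1 : z.1 ≤ w.1)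
    (h2 : z.2 ≤ w.2) : val n w r ≤ val n z r + 1 := by
  cases r with
  | nil => simp [val]
  | cons e r =>
    simp only [val]
    unfold bk
    omega

theorem hgt {G : ℕ × ℕ → ℤ} (hG1 : ∀ z r, Cl n ω r → val n z r ≤ G z)
    (hG2 : ∀ z, ∃ r, Cl n ω r ∧ val n z r = G z) :
    Hgt n ω (fun x y => G (x, n - 2 - y)) := by
  have hinc : ∀ e, Rel n e → inc (fun x y => G (x, n - 2 - y)) e = G (en n e) - G (st n e) := by
    intro e he
    unfold Rel at he
    unfold inc en st
    split_ifs at he ⊢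
    · rfl
    · have : n - 2 - (e.2.1 - 1) = n - 2 - e.2.1 + 1 := by omega
      simp only [this]
  have hse : ∀ e, (st n e).1 ≤ (en n e).1 ∧ (st n e).2 ≤ (en n e).2 := fun e =>
    ⟨(st_le_pos n e).1.trans (pos_le_en n e).1, (st_le_pos n e).2.trans (pos_le_en n e).2⟩
  have hle : ∀ e, Rel n e → G (en n e) ≤ G (st n e) + 1 := by
    intro e he
    obtain ⟨r, hr, hr2⟩ := hG2 (en n e)
    have h1 := st_en he
    have h2 := val_lip (n := n) r (z := st n e) (w := en n e) (by omega) (hse e).1 (hse e).2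
    have h3 := hG1 (st n e) r hr
    omega
  refine ⟨fun e he => ?_, fun e he => ?_, fun e he hω => ?_⟩
  · rw [hinc e he]
    obtain ⟨r, hr, hr2⟩ := hG2 (st n e)
    have h2 := val_mono (n := n) r (hse e).1 (hse e).2
    have h3 := hG1 (en n e) r hr
    omega
  · rw [hinc e he]
    have := hle e he
    omega
  · rw [hinc e he]
    have h4 := hle e he
    obtain ⟨r, hr, hr2⟩ := hG2 (st n e)
    have h3 := hG1 (en n e) (e :: r) (by
      intro f hf
      rcases List.mem_cons.1 hf with rfl | hf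
      · exact ⟨he, hω⟩
      · exact hr f hf)
    simp only [val] at h3
    unfold bk at h3
    omega

theorem val_loop (B C : List Eg) (hB : Cl n ω B) {e : Eg} (w : ℕ × ℕ) :
    val n w (B ++ e :: C) ≤ (w.1 + w.2 : ℤ) - ((en n e).1 + (en n e).2 : ℤ) + 1
      + val n (st n e) C := by
  induction B generalizing w with
  | nil =>
    simp only [List.nil_append, val]
    unfold bk
    omega
  | cons f B ih =>
    have h1 := ih (fun g hg => hB g (List.mem_cons_of_mem _ hg)) (st n f)
    have h2 := st_en (hB f List.mem_cons_self).1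
    simp only [List.cons_append, val]
    unfold bk
    omega

theorem val_app (A : List Eg) {C D : List Eg} (h : ∀ w, val n w C ≤ val n w D) (z : ℕ × ℕ) :
    val n z (A ++ C) ≤ val n z (A ++ D) := by
  induction A generalizing z with
  | nil => exact h z
  | cons a A ih =>
    simp only [List.cons_append, val]
    have := ih (st n a)
    omega

theorem exists_nodup (r : List Eg) (hr : Cl n ω r) (z : ℕ × ℕ) :
    ∃ r', Cl n ω r' ∧ r'.Nodup ∧ val n z r ≤ val n z r' := by
  obtain ⟨m, hm⟩ : ∃ m, m = r.length := ⟨_, rfl⟩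
  induction m using Nat.strong_induction_on generalizing r with
  | _ m ih =>
    by_cases hn : r.Nodup
    · exact ⟨r, hr, hn, le_rfl⟩
    · obtain ⟨e, A, B, C, rfl⟩ : ∃ (e : Eg) (A B C : List Eg), r = A ++ e :: (B ++ e :: C) := by
        clear ih hm hr
        induction r with
        | nil => exact absurd List.nodup_nil hn
        | cons a r ih2 =>
          rw [List.nodup_cons, not_and_or, not_not] at hn
          rcases hn with hn | hn
          · obtain ⟨s, t, rfl⟩ := List.append_of_mem hn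
            exact ⟨a, [], s, t, rfl⟩
          · obtain ⟨e, A, B, C, rfl⟩ := ih2 hn
            exact ⟨e, a :: A, B, C, rfl⟩
      have he : Rel n e := (hr e (by simp)).1
      have hB : Cl n ω B := fun f hf => hr f (by simp [hf])
      have h1 : ∀ w, val n w (e :: (B ++ e :: C)) ≤ val n w (e :: C) := by
        intro w
        simp only [val]
        have h2 := val_loop B C hB (e := e) (st n e)
        have h3 := st_en he
        omega
      have h2 := val_app A h1 z
      obtain ⟨r', g1, g2, g3⟩ := ih (A ++ e :: C).length (by rw [hm]; simp) (A ++ e :: C)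
        (fun f hf => hr f (by
          simp only [List.mem_append, List.mem_cons] at hf ⊢
          tauto)) rfl
      exact ⟨r', g1, g2, h2.trans g3⟩

theorem val_cst (r : List Eg) (e : Eg) (z : ℕ × ℕ) :
    val n z (e :: r) + cst ((e :: r).map (pos n)) ≤ r.length + 1 - bk (en n e) z := by
  induction r generalizing e z with
  | nil => simp [val, cst]
  | cons f r ih =>
    have h1 := ih f (st n e)
    have h2 := pos_le_en n f
    have h3 := st_le_pos n e
    have h4 : val n z (e :: f :: r) = 1 - bk (en n e) z + val n (st n e) (f :: r) := rfl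
    have h5 : cst ((e :: f :: r).map (pos n)) = ((pos n f).1 - (pos n e).1) +
      ((pos n f).2 - (pos n e).2) + cst ((f :: r).map (pos n)) := rfl
    rw [h4, h5]
    simp only [List.length_cons]
    unfold bk at *
    push_cast
    omega

theorem flow_det (hn : 2 ≤ n) (ω : Eg → Bool) : ∃ r : List Eg, r.Nodup ∧ Cl n ω r ∧
    cst (r.map (pos n)) ≤ r.length ∧ ∃ s : List (ℕ × ℕ),
      s.Pairwise (fun a b => b.1 < a.1 ∧ b.2 < a.2) ∧ (∀ z ∈ s, z ∈ r.map (pos n)) ∧
      2 * ((n : ℤ) - 2) ≤ Vn n ω + s.length + an (r.map (pos n)) := by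
  obtain ⟨G, hG1, hG2⟩ := exists_G n ω
  have hfl := flow (hgt hG1 hG2) hn
  simp only [Nat.sub_zero, Nat.sub_self] at hfl
  obtain ⟨r0, hr0, hr0'⟩ := hG2 (n - 2, n - 2)
  obtain ⟨r, hr, hrn, hrv⟩ := exists_nodup r0 hr0 (n - 2, n - 2)
  have h0 : 0 ≤ G (0, 0) := by
    have := hG1 (0, 0) [] (fun e he => by simp at he)
    simpa [val] using this
  have h1 : val n (n - 2, n - 2) [] ≤ G (n - 2, n - 2) :=
    hG1 _ [] (fun e he => by simp at he)
  simp only [val] at h1
  have h2 : val n (n - 2, n - 2) r + cst (r.map (pos n)) ≤ r.length := by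
    cases r with
    | nil => simp [val, cst]
    | cons e r =>
      have := val_cst r e ((n - 2, n - 2) : ℕ × ℕ) (n := n)
      simp only [List.length_cons]
      push_cast
      omega
  obtain ⟨s, s1, s2, -, s3⟩ := stack (r.map (pos n))
  rw [List.length_map] at s3
  refine ⟨r, hrn, hr, by omega, s, s1, s2, ?_⟩
  omega

end Pool.Agent.X133.OP
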