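import Pool.Agent.X133.OP.EL
import Pool.Agent.X133.OP.Val
import Pool.Agent.X133.OP.Cut

/-!
# The mean of the flow
-/

set_option autoImplicit false

open scoped BigOperators ENNReal
open MeasureTheory ProbabilityTheory

namespace Pool.Agent.X133.OP

open Pool.Agent.W533.LP (V mean)

theorem openPath_congr {n : ℕ} {ω ω' : Eg → Bool}
    (h : ∀ e : Eg, e.1 < n → e.2.1 < n → ω e = ω' e) (l : List Eg) (hl : OpenPath n ω l) :
    OpenPath n ω' l := by
  obtain ⟨h1, h2, h3⟩ := hl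
  refine ⟨h1, fun e he => ?_, h3⟩
  obtain ⟨g1, g2, g3⟩ := h2 e he
  refine ⟨?_, g2, g3⟩
  rw [← h e ?_ ?_]
  · exact g1
  · rcases hd_cases e with h4 | h4 <;> rw [h4] at g2 g3 <;> simp only at g2 g3 <;> omega
  · rcases hd_cases e with h4 | h4 <;> rw [h4] at g2 g3 <;> simp only at g2 g3 <;> omega

theorem Vn_congr {n : ℕ} {ω ω' : Eg → Bool}
    (h : ∀ e : Eg, e.1 < n → e.2.1 < n → ω e = ω' e) : Vn n ω = Vn n ω' := by
  unfold Vn
  congr 1
  ext k
  constructor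
  · rintro ⟨P, h1, h2⟩
    exact ⟨P, fun i => openPath_congr h _ (h1 i), h2⟩
  · rintro ⟨P, h1, h2⟩
    exact ⟨P, fun i => openPath_congr (fun e he hf => (h e he hf).symm) _ (h1 i), h2⟩

/-- the maximal flow is a measurable function of the configuration -/
theorem Vn_meas (n : ℕ) : Measurable (Vn n) := by
  classical
  obtain ⟨F, hF⟩ : ∃ F : Finset Eg, F = Finset.range n ×ˢ Finset.range n ×ˢ Finset.univ := ⟨_, rfl⟩
  obtain ⟨g, hg⟩ : ∃ g : (↥F → Bool) → Eg → Bool,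
    g = fun r e => if h : e ∈ F then r ⟨e, h⟩ else false := ⟨_, rfl⟩
  have h1 : Vn n = (fun r : ↥F → Bool => Vn n (g r)) ∘
      (fun (ω : Eg → Bool) (e : ↥F) => ω e) := by
    funext ω
    refine Vn_congr fun e he hf => ?_
    have : e ∈ F := by
      rw [hF]
      simp [he, hf]
    rw [hg]
    simp only [dif_pos this]
  rw [h1]
  exact (measurable_of_countable _).comp
    (measurable_pi_lambda _ fun e => measurable_pi_apply _)

theorem Vn_int {p : ℝ} (h0 : 0 ≤ p) (h1 : p ≤ 1) {n : ℕ} (hn : 2 ≤ n) :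
    Integrable (fun ω => (Vn n ω : ℝ)) (Pp p) := by
  have := Pp_prob h0 h1
  refine Integrable.of_bound (measurable_from_top.comp (Vn_meas n)).aestronglyMeasurable
    ((2 * (n - 1) : ℕ) : ℝ) (Filter.Eventually.of_forall fun ω => ?_)
  rw [Real.norm_eq_abs, abs_of_nonneg (by positivity)]
  exact_mod_cast Vn_le hn ω

theorem etaL_meas (n : ℕ) : Measurable (fun ω => etaL n ω) := by
  refine measurable_pi_lambda _ fun v => ?_
  have h1 : Measurable (fun c : Bool × Bool => !(c.1 && c.2)) := Measurable.of_discrete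
  have h2 : Measurable (fun ω : Eg → Bool => (ω (fL n (v, false)), ω (fL n (v, true)))) :=
    (measurable_pi_apply _).prodMk (measurable_pi_apply _)
  exact h1.comp h2

theorem etaU_meas (n : ℕ) : Measurable (fun ω => etaU n ω) := by
  refine measurable_pi_lambda _ fun v => ?_
  have h1 : Measurable (fun c : Bool × Bool => !(c.1 && c.2)) := Measurable.of_discrete
  have h2 : Measurable (fun ω : Eg → Bool => (ω (fU n (v, false)), ω (fU n (v, true)))) :=
    (measurable_pi_apply _).prodMk (measurable_pi_apply _)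
  exact h1.comp h2

theorem Ls_meas (N : ℕ) : Measurable (fun η : V N → Bool => (Ls N η : ℝ)) :=
  measurable_of_countable _

theorem EL_etaL {p : ℝ} (h0 : 0 ≤ p) (h1 : p ≤ 1) (n : ℕ) :
    ∫ ω, (Ls (n - 2) (etaL n ω) : ℝ) ∂(Pp p) = EL (n - 2) (1 - p ^ 2) := by
  unfold EL
  rw [← law_eta h0 h1 (n - 2) (fL n) (fL_inj n)]
  exact (integral_map (etaL_meas n).aemeasurable (Ls_meas _).aestronglyMeasurable).symm

theorem EL_etaU {p : ℝ} (h0 : 0 ≤ p) (h1 : p ≤ 1) (n : ℕ) :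
    ∫ ω, (Ls (n - 1) (etaU n ω) : ℝ) ∂(Pp p) = EL (n - 1) (1 - p ^ 2) := by
  unfold EL
  rw [← law_eta h0 h1 (n - 1) (fU n) (fU_inj n)]
  exact (integral_map (etaU_meas n).aemeasurable (Ls_meas _).aestronglyMeasurable).symm

theorem Ls_int {Ω : Type*} [MeasurableSpace Ω] (P : Measure Ω) [IsProbabilityMeasure P] (N : ℕ)
    (f : Ω → V N → Bool) (hf : Measurable f) : Integrable (fun ω => (Ls N (f ω) : ℝ)) P :=
  Integrable.of_bound ((Ls_meas N).comp hf).aestronglyMeasurable (N : ℝ)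
    (Filter.Eventually.of_forall fun ω => by
      rw [Real.norm_eq_abs, abs_of_nonneg (by positivity)]
      exact_mod_cast Ls_le N _)

theorem EV_upper {p : ℝ} (h0 : 0 ≤ p) (h1 : p ≤ 1) {n : ℕ} (hn : 2 ≤ n) :
    ∫ ω, (Vn n ω : ℝ) ∂(Pp p) + EL (n - 2) (1 - p ^ 2) ≤ 2 * ((n : ℝ) - 1) := by
  have := Pp_prob h0 h1
  rw [← EL_etaL h0 h1 n, ← integral_add (Vn_int h0 h1 hn) (Ls_int _ _ _ (etaL_meas n))]
  have h2 : ∫ ω, ((Vn n ω : ℝ) + (Ls (n - 2) (etaL n ω) : ℝ)) ∂(Pp p) ≤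
      ∫ _ω, 2 * ((n : ℝ) - 1) ∂(Pp p) := by
    refine integral_mono ((Vn_int h0 h1 hn).add (Ls_int _ _ _ (etaL_meas n)))
      (integrable_const _) fun ω => ?_
    have h3 := cut_Ls hn ω
    have h4 : ((Vn n ω + Ls (n - 2) (etaL n ω) : ℕ) : ℝ) ≤ ((2 * (n - 1) : ℕ) : ℝ) := by
      exact_mod_cast h3
    rw [Nat.cast_mul, Nat.cast_sub (by omega)] at h4
    push_cast at h4
    exact h4
  simpa using h2

theorem EV_lower {p δ : ℝ} (h0 : 0 ≤ p) (h1 : p < 1) (hδ : 0 < δ)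
    (hq1 : Real.sqrt (1 - p) ≤ 1 / 48) (hq2 : 2 * Real.sqrt (1 - p) ≤ Real.exp (-(99 / δ)))
    {n : ℕ} (hn : 2 ≤ n) (a : ℕ) (ha1 : δ * (Real.sqrt (1 - p) * ((n - 1 : ℕ) : ℝ)) ≤ a)
    (ha2 : (a : ℝ) ≤ 2 * ((n : ℝ) - 2)) :
    (2 * ((n : ℝ) - 2) - a) * (1 - 120 * ((n - 1 : ℕ) : ℝ) ^ 2 *
      Real.exp (-(Real.sqrt (1 - p) * ((n - 1 : ℕ) : ℝ)))) ≤
      ∫ ω, (Vn n ω : ℝ) ∂(Pp p) + EL (n - 1) (1 - p ^ 2) := by
  classical
  have := Pp_prob h0 h1.le
  have hs0 : 0 < Real.sqrt (1 - p) := Real.sqrt_pos.2 (by linarith)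
  obtain ⟨M, hM⟩ : ∃ M : ℕ, M = ⌈24 * (Real.sqrt (1 - p) * ((n - 1 : ℕ) : ℝ))⌉₊ := ⟨_, rfl⟩
  have hM1 : 24 * (Real.sqrt (1 - p) * ((n - 1 : ℕ) : ℝ)) ≤ M := by rw [hM]; exact Nat.le_ceil _
  have hM2 : (M : ℝ) ≤ 24 * (Real.sqrt (1 - p) * ((n - 1 : ℕ) : ℝ)) + 1 := by
    rw [hM]
    exact (Nat.ceil_lt_add_one (by positivity)).le
  obtain ⟨A, hA⟩ : ∃ A : Finset Eg,
    A = Finset.range (n - 1) ×ˢ Finset.range (n - 1) ×ˢ Finset.univ := ⟨_, rfl⟩
  have hmem : ∀ e : Eg, e ∈ A ↔ e.1 < n - 1 ∧ e.2.1 < n - 1 := by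
    intro e
    rw [hA]
    simp
  have hcard : A.card = 2 * (n - 1) ^ 2 := by
    rw [hA, Finset.card_product, Finset.card_product, Finset.card_range, Finset.card_univ,
      Fintype.card_bool]
    ring
  have hfm := first_moment (E := Eg) (Pp p) (fun l => {ω | l.Nodup ∧ ∀ e ∈ l, ω e = false})
    (ρ := 1 - p) (δ := δ) (by linarith) hδ hq1 hq2
    (fun l => by
      by_cases hl : l.Nodup
      · have : {ω : Eg → Bool | l.Nodup ∧ ∀ e ∈ l, ω e = false} = {ω | ∀ e ∈ l, ω e = false} := by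
          ext ω
          exact ⟨fun h => h.2, fun h => ⟨hl, h⟩⟩
        rw [this, Pp_closed h0 h1.le l hl]
      · have : {ω : Eg → Bool | l.Nodup ∧ ∀ e ∈ l, ω e = false} = ∅ := by
          ext ω
          exact ⟨fun h => absurd h.1 hl, fun h => absurd h (by simp)⟩
        rw [this, measureReal_empty]
        exact pow_nonneg (by linarith) _)
    A (pos n) (n - 1)
    (fun e he => by
      rw [hmem] at he
      simp only [pos]
      omega)
    (fun z => by
      have h5 : (A.filter (fun e => pos n e = z)) ⊆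
          (Finset.univ : Finset Bool).image (fun b => ((z.1, n - 2 - z.2, b) : Eg)) := by
        intro e he
        rw [Finset.mem_filter, hmem] at he
        obtain ⟨⟨g1, g2⟩, g3⟩ := he
        rw [Finset.mem_image]
        refine ⟨e.2.2, Finset.mem_univ _, ?_⟩
        rw [← g3]
        simp only [pos]
        have : n - 2 - (n - 2 - e.2.1) = e.2.1 := by omega
        rw [this]
      exact (Finset.card_le_card h5).trans (Finset.card_image_le.trans (by simp)))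
    M a A.card hM1 hM2 ha1
  obtain ⟨B, hB⟩ : ∃ B : Set (Eg → Bool), B = {ω | ∃ l : List Eg, l ≠ [] ∧ l.length ≤ A.card ∧
      (∀ e ∈ l, e ∈ A) ∧ cst (l.map (pos n)) ≤ l.length ∧
      ω ∈ {ω : Eg → Bool | l.Nodup ∧ ∀ e ∈ l, ω e = false} ∧
      (M < l.length ∨ a ≤ an (l.map (pos n)))} := ⟨_, rfl⟩
  rw [← hB, hcard] at hfm
  rw [← EL_etaU h0 h1.le n, ← integral_add (Vn_int h0 h1.le hn) (Ls_int _ _ _ (etaU_meas n))]
  refine int_ge (Pp p) (fun ω => (Vn n ω : ℝ) + (Ls (n - 1) (etaU n ω) : ℝ))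
    ((Vn_int h0 h1.le hn).add (Ls_int _ _ _ (etaU_meas n)))
    (fun ω => by positivity) B _ _ (by linarith) (hfm.trans (le_of_eq ?_)) ?_
  · push_cast
    ring
  · intro ω hω
    obtain ⟨r, r1, r2, r3, r4⟩ := flow_Ls hn ω
    have k1 : an (r.map (pos n)) ≤ a := by
      by_cases hr : r = []
      · subst hr
        rw [List.map_nil, an_nil]
        exact Nat.zero_le _
      · by_contra hcon
        push Not at hcon
        apply hω
        rw [hB]
        refine ⟨r, hr, ?_, fun e he => (hmem e).2 (r2 e he).2, r3,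
          ⟨r1, fun e he => (r2 e he).1⟩, Or.inr hcon.le⟩
        rw [← List.toFinset_card_of_nodup r1]
        refine Finset.card_le_card fun e he => ?_
        rw [List.mem_toFinset] at he
        exact (hmem e).2 (r2 e he).2
    have k2 : 2 * ((n : ℤ) - 2) ≤ Vn n ω + Ls (n - 1) (etaU n ω) + a := by
      have : (an (r.map (pos n)) : ℤ) ≤ a := by exact_mod_cast k1
      linarith
    have k3 : 2 * ((n : ℝ) - 2) ≤ Vn n ω + Ls (n - 1) (etaU n ω) + a := by exact_mod_cast k2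
    linarith

end Pool.Agent.X133.OP
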