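import Pool.Agent.X133.OP.EV

/-!
# The limit
-/

set_option autoImplicit false

open scoped BigOperators ENNReal Topology
open MeasureTheory ProbabilityTheory Filter

namespace Pool.Agent.X133.OP

open Pool.Agent.W533.LP (V mean)

theorem beta_tendsto {u : ℝ} (hu : 0 < u) :
    Tendsto (fun n : ℕ => 120 * ((n - 1 : ℕ) : ℝ) ^ 2 * Real.exp (-(u * ((n - 1 : ℕ) : ℝ))))
      atTop (𝓝 0) := by
  have h3 := (Real.tendsto_pow_mul_exp_neg_atTop_nhds_zero 2).comp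
    ((tendsto_id.const_mul_atTop hu).comp
      ((tendsto_natCast_atTop_atTop (R := ℝ)).comp (tendsto_sub_atTop_nat 1)))
  have h4 := h3.const_mul (120 / u ^ 2)
  rw [mul_zero] at h4
  refine h4.congr fun N => ?_
  simp only [Function.comp, id]
  field_simp

theorem main_ineq {p δ ε : ℝ} (h0 : 0 < p) (h1 : p < 1) (hδ : 0 < δ) (hδ1 : δ ≤ 1) (hε : 0 < ε)
    (hQ1 : Real.sqrt (1 - p ^ 2) ≤ 1 / 48)
    (hQ2 : 2 * Real.sqrt (1 - p ^ 2) ≤ Real.exp (-(99 / δ))) :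
    ∀ᶠ n : ℕ in atTop, |(1 - (∫ ω, (Vn n ω : ℝ) ∂(Pp p)) / (2 * n)) -
      mean (Real.sqrt (1 - p ^ 2))| ≤ δ * Real.sqrt (1 - p ^ 2) + ε := by
  have hq0 : 0 < 1 - p ^ 2 := by nlinarith
  have hq1 : 1 - p ^ 2 < 1 := by nlinarith
  have hur : Real.sqrt (1 - p) ≤ Real.sqrt (1 - p ^ 2) := Real.sqrt_le_sqrt (by nlinarith)
  have hu0 : 0 < Real.sqrt (1 - p) := Real.sqrt_pos.2 (by linarith)
  obtain ⟨n0, hn0⟩ := EL_lower hq0 hδ hε hQ1 hQ2
  have hb := (beta_tendsto hu0).eventually_lt_const (show (0 : ℝ) < ε / 2 by linarith)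
  have hn1 : ∀ᶠ n : ℕ in atTop, 5 / ε ≤ (n : ℝ) := tendsto_natCast_atTop_atTop.eventually_ge_atTop _
  filter_upwards [hb, hn1, eventually_ge_atTop (n0 + 2), eventually_ge_atTop 5] with n g1 g2 g3 g4
  obtain ⟨r, hr⟩ : ∃ r, r = Real.sqrt (1 - p ^ 2) := ⟨_, rfl⟩
  obtain ⟨u, hu⟩ : ∃ u, u = Real.sqrt (1 - p) := ⟨_, rfl⟩
  have hnR : (5 : ℝ) ≤ n := by exact_mod_cast g4
  have c1 : ((n - 1 : ℕ) : ℝ) = (n : ℝ) - 1 := by rw [Nat.cast_sub (by omega)]; simp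
  have c2 : ((n - 2 : ℕ) : ℝ) = (n : ℝ) - 2 := by rw [Nat.cast_sub (by omega)]; simp
  obtain ⟨a, haa⟩ : ∃ a : ℕ, a = ⌈δ * (Real.sqrt (1 - p) * ((n - 1 : ℕ) : ℝ))⌉₊ := ⟨_, rfl⟩
  have ha1 : δ * (Real.sqrt (1 - p) * ((n - 1 : ℕ) : ℝ)) ≤ a := by rw [haa]; exact Nat.le_ceil _
  have ha2 : (a : ℝ) ≤ δ * (Real.sqrt (1 - p) * ((n - 1 : ℕ) : ℝ)) + 1 := by
    rw [haa]
    exact (Nat.ceil_lt_add_one (by positivity)).le
  have hu48 : Real.sqrt (1 - p) ≤ 1 / 48 := hur.trans hQ1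
  have ha3 : (a : ℝ) ≤ 2 * ((n : ℝ) - 2) := by
    rw [c1] at ha2
    have h5 : δ * (Real.sqrt (1 - p) * ((n : ℝ) - 1)) ≤ 1 * (1 / 48 * ((n : ℝ) - 1)) := by
      apply mul_le_mul hδ1 _ (mul_nonneg (Real.sqrt_nonneg _) (by linarith)) zero_le_one
      apply mul_le_mul_of_nonneg_right hu48
      linarith
    linarith
  have hup := EV_upper h0.le h1.le (n := n) (by omega)
  have hlo := EV_lower h0.le h1 hδ hu48 (by linarith) (n := n) (by omega) a ha1 ha3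
  have hEL1 := hn0 (n - 2) (by omega)
  have hEL2 := EL_upper hq0 hq1 (n - 1)
  rw [c1] at hEL2 ha2
  rw [c2] at hEL1
  obtain ⟨β, hβ⟩ : ∃ β, β = 120 * ((n - 1 : ℕ) : ℝ) ^ 2 *
    Real.exp (-(Real.sqrt (1 - p) * ((n - 1 : ℕ) : ℝ))) := ⟨_, rfl⟩
  have hβ0 : 0 ≤ β := by rw [hβ]; positivity
  rw [← hβ] at hlo g1
  obtain ⟨Ev, hEv⟩ : ∃ Ev, Ev = ∫ ω, (Vn n ω : ℝ) ∂(Pp p) := ⟨_, rfl⟩
  rw [← hEv] at hup hlo ⊢
  rw [← hr] at hQ1 hEL1 hEL2 hur ⊢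
  rw [← hu] at ha2 hu0 hur
  have hr0 : 0 < r := hu0.trans_le hur
  have hm0 : 0 ≤ mean r := by
    unfold Pool.Agent.W533.LP.mean
    exact div_nonneg hr0.le (by linarith)
  have hm1 : mean r ≤ 1 / 2 := by
    unfold Pool.Agent.W533.LP.mean
    rw [div_le_iff₀ (by linarith)]
    linarith
  have hεn : 5 ≤ ε * n := by
    rw [div_le_iff₀ hε] at g2
    linarith
  have hδr : 0 < δ * r := mul_pos hδ hr0
  have hδu : δ * u ≤ δ * r := mul_le_mul_of_nonneg_left hur hδ.le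
  have hn0' : (0 : ℝ) < 2 * n := by linarith
  have key1 : 2 * n - Ev ≤ 2 * n * (mean r + (δ * r + ε)) := by
    have h6 : (2 * ((n : ℝ) - 2) - a) * β ≤ 2 * n * β := by
      apply mul_le_mul_of_nonneg_right _ hβ0
      have : (0 : ℝ) ≤ a := Nat.cast_nonneg a
      linarith
    have h7 : 2 * n * β ≤ n * ε := by nlinarith
    have h8 : δ * (u * ((n : ℝ) - 1)) ≤ δ * r * n := by
      have : δ * (u * ((n : ℝ) - 1)) ≤ δ * u * n := by
        have := mul_pos hδ hu0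
        nlinarith
      nlinarith
    have h9 : 0 ≤ δ * r * n := by positivity
    nlinarith
  have key2 : 2 * n * (mean r - (δ * r + ε)) ≤ 2 * n - Ev := by
    have h9 : 0 ≤ δ * r * n := by positivity
    have h10 : 0 ≤ ε * n := by positivity
    nlinarith
  have e5 : 1 - Ev / (2 * n) = (2 * n - Ev) / (2 * n) := by field_simp
  rw [e5, abs_le]
  constructor
  · rw [neg_le_sub_iff_le_add, ← sub_le_iff_le_add, le_div_iff₀ hn0']
    linarith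
  · rw [sub_le_iff_le_add, div_le_iff₀ hn0']
    linarith

theorem main_lim {δ : ℝ} (hδ : 0 < δ) : ∃ p0 : ℝ, p0 < 1 ∧ 0 < p0 ∧ ∀ p, p0 < p → p < 1 →
    ∀ᶠ n : ℕ in atTop, |(1 - (∫ ω, (Vn n ω : ℝ) ∂(Pp p)) / (2 * n)) -
      Real.sqrt (2 * (1 - p))| ≤ δ * Real.sqrt (2 * (1 - p)) := by
  obtain ⟨d, hd⟩ : ∃ d, d = min (δ / 4) 1 := ⟨_, rfl⟩
  have hd0 : 0 < d := by rw [hd]; exact lt_min (by linarith) one_pos
  have hd1 : d ≤ 1 := by rw [hd]; exact min_le_right _ _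
  have hd2 : d ≤ δ / 4 := by rw [hd]; exact min_le_left _ _
  obtain ⟨s0, hs0⟩ : ∃ s0, s0 = min (min (1 / 48) (Real.exp (-(99 / d)) / 2)) (d / 2) := ⟨_, rfl⟩
  have hs00 : 0 < s0 := by
    rw [hs0]
    exact lt_min (lt_min (by norm_num) (by positivity)) (by linarith)
  have hs01 : s0 ≤ 1 / 48 := by rw [hs0]; exact (min_le_left _ _).trans (min_le_left _ _)
  have hs02 : s0 ≤ Real.exp (-(99 / d)) / 2 := by
    rw [hs0]; exact (min_le_left _ _).trans (min_le_right _ _)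
  have hs03 : s0 ≤ d / 2 := by rw [hs0]; exact min_le_right _ _
  refine ⟨1 - s0 ^ 2 / 2, by nlinarith, by nlinarith, fun p hp hp1 => ?_⟩
  have hp0 : 0 < p := by nlinarith
  obtain ⟨s, hs⟩ : ∃ s, s = Real.sqrt (2 * (1 - p)) := ⟨_, rfl⟩
  have hsq : s ^ 2 = 2 * (1 - p) := by rw [hs, Real.sq_sqrt (by linarith)]
  have hspos : 0 < s := by rw [hs]; exact Real.sqrt_pos.2 (by linarith)
  have hss : s ≤ s0 := by
    rw [hs]
    apply Real.sqrt_le_iff.2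
    exact ⟨hs00.le, by linarith⟩
  obtain ⟨r, hr⟩ : ∃ r, r = Real.sqrt (1 - p ^ 2) := ⟨_, rfl⟩
  have hrq : r ^ 2 = 1 - p ^ 2 := by rw [hr, Real.sq_sqrt (by nlinarith)]
  have hr0 : 0 ≤ r := by rw [hr]; exact Real.sqrt_nonneg _
  have hpe : p = 1 - s ^ 2 / 2 := by linarith
  have hrq2 : r ^ 2 = s ^ 2 * (1 - s ^ 2 / 4) := by rw [hrq, hpe]; ring
  have hrs : r ≤ s := by
    apply le_of_sq_le_sq _ hspos.le
    rw [hrq2]
    nlinarith [sq_nonneg (s ^ 2)]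
  have hrs2 : s * (1 - s) ≤ r := by
    apply le_of_sq_le_sq _ hr0
    rw [hrq2]
    have : (1 - s) ^ 2 ≤ 1 - s ^ 2 / 4 := by nlinarith
    calc (s * (1 - s)) ^ 2 = s ^ 2 * (1 - s) ^ 2 := by ring
      _ ≤ _ := mul_le_mul_of_nonneg_left this (sq_nonneg _)
  have hmain := main_ineq (ε := d * s) hp0 hp1 hd0 hd1 (by positivity)
    (by rw [← hr]; linarith) (by rw [← hr]; linarith)
  filter_upwards [hmain] with n hn
  rw [← hr] at hn
  rw [← hs]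
  -- the mean
  have hm1 : mean r ≤ s + d * s := by
    unfold Pool.Agent.W533.LP.mean
    rw [div_le_iff₀ (by linarith)]
    have : s * (1 + d) * (1 - s) ≤ s * (1 + d) * (1 - r) := by
      apply mul_le_mul_of_nonneg_left _ (by positivity)
      linarith
    have h3 : 1 ≤ (1 + d) * (1 - s) := by nlinarith
    nlinarith
  have hm2 : s - d * s ≤ mean r := by
    unfold Pool.Agent.W533.LP.mean
    rw [le_div_iff₀ (by linarith)]
    have h4 : 0 ≤ s - d * s := by nlinarith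
    have : (s - d * s) * (1 - r) ≤ s - d * s := by nlinarith
    nlinarith
  have h5 : d * r ≤ d * s := mul_le_mul_of_nonneg_left hrs hd0.le
  have h6 : 3 * (d * s) ≤ δ * s := by nlinarith
  rw [abs_le] at hn ⊢
  constructor <;> linarith [hn.1, hn.2]

theorem tendsto_mean {p : ℝ} (h0 : 0 < p) (h1 : p < 1) {v : ℝ}
    (h : Tendsto (fun n : ℕ => ∫ ω, |(Vn n ω : ℝ) / (2 * n) - v| ∂(Pp p)) atTop (𝓝 0)) :
    Tendsto (fun n : ℕ => (∫ ω, (Vn n ω : ℝ) ∂(Pp p)) / (2 * n)) atTop (𝓝 v) := by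
  have := Pp_prob h0.le h1.le
  rw [tendsto_iff_norm_sub_tendsto_zero]
  refine squeeze_zero' (Eventually.of_forall fun n => norm_nonneg _) ?_ h
  filter_upwards [eventually_ge_atTop 2] with n hn
  have e1 : (∫ ω, (Vn n ω : ℝ) ∂(Pp p)) / (2 * n) - v =
      ∫ ω, ((Vn n ω : ℝ) / (2 * n) - v) ∂(Pp p) := by
    rw [integral_sub ((Vn_int h0.le h1.le hn).div_const _) (integrable_const _), integral_div]
    simp
  rw [e1]
  exact norm_integral_le_integral_norm _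

theorem final (v : ℝ → ℝ) (hv : ∀ p : ℝ, 0 < p → p < 1 →
    Tendsto (fun n : ℕ => ∫ ω, |(Vn n ω : ℝ) / (2 * n) - v p| ∂(Pp p)) atTop (𝓝 0)) :
    Tendsto (fun p => (1 - v p) / Real.sqrt (2 * (1 - p))) (𝓝[<] 1) (𝓝 1) := by
  rw [Metric.tendsto_nhds]
  intro δ hδ
  obtain ⟨p0, hp0, hp00, hb⟩ := main_lim (half_pos hδ)
  filter_upwards [Ioo_mem_nhdsLT hp0] with p hp
  have h1 := hb p hp.1 hp.2
  have h2 := tendsto_mean (hp00.trans hp.1) hp.2 (hv p (hp00.trans hp.1) hp.2)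
  have h3 : Tendsto (fun n : ℕ => |(1 - (∫ ω, (Vn n ω : ℝ) ∂(Pp p)) / (2 * n)) -
      Real.sqrt (2 * (1 - p))|) atTop (𝓝 |(1 - v p) - Real.sqrt (2 * (1 - p))|) :=
    ((h2.const_sub 1).sub_const _).abs
  have h4 := le_of_tendsto h3 h1
  have hs : 0 < Real.sqrt (2 * (1 - p)) := Real.sqrt_pos.2 (by linarith [hp.2])
  rw [Real.dist_eq]
  have h5 : (1 - v p) / Real.sqrt (2 * (1 - p)) - 1 =
      ((1 - v p) - Real.sqrt (2 * (1 - p))) / Real.sqrt (2 * (1 - p)) := by field_simp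
  rw [h5, abs_div, abs_of_pos hs, div_lt_iff₀ hs]
  nlinarith

end Pool.Agent.X133.OP
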