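import Pool.Agent.X133.OP.Cut

/-!
# From a height function to edge-disjoint open paths

`h x y` is the height of the face with lower left corner `(x, y)`, `0 ≤ x, y ≤ n - 2`.
-/

set_option autoImplicit false

namespace Pool.Agent.X133.OP

/-- increment of the height across an edge -/
def inc (h : ℕ → ℕ → ℤ) (e : Eg) : ℤ :=
  if e.2.2 then h e.1 e.2.1 - h (e.1 - 1) e.2.1 else h e.1 (e.2.1 - 1) - h e.1 e.2.1

/-- edges between bounded faces -/
def Rel (n : ℕ) (e : Eg) : Prop :=
  e.1 + 2 ≤ n ∧ e.2.1 + 2 ≤ n ∧ (if e.2.2 then 1 ≤ e.1 else 1 ≤ e.2.1)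

/-- feasible height functions -/
structure Hgt (n : ℕ) (ω : Eg → Bool) (h : ℕ → ℕ → ℤ) : Prop where
  nn : ∀ e, Rel n e → 0 ≤ inc h e
  le : ∀ e, Rel n e → inc h e ≤ 1
  cl : ∀ e, Rel n e → ω e = false → inc h e = 1

/-- edges which carry flow -/
def Us (n : ℕ) (h : ℕ → ℕ → ℤ) (e : Eg) : Prop := Rel n e ∧ inc h e = 0

/-- interior vertices -/
def Ivx (n : ℕ) (v : ℕ × ℕ) : Prop := 1 ≤ v.1 ∧ v.1 + 2 ≤ n ∧ 1 ≤ v.2 ∧ v.2 + 2 ≤ n

instance (n : ℕ) (v : ℕ × ℕ) : Decidable (Ivx n v) := by unfold Ivx; infer_instance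

open Classical in
/-- the next edge of a flow line -/
noncomputable def nx (n : ℕ) (h : ℕ → ℕ → ℤ) (e : Eg) : Eg :=
  if Us n h ((hd e).1, (hd e).2, e.2.2) then ((hd e).1, (hd e).2, e.2.2)
  else ((hd e).1, (hd e).2, !e.2.2)

theorem tl_nx (n : ℕ) (h : ℕ → ℕ → ℤ) (e : Eg) : tl (nx n h e) = hd e := by
  unfold nx tl
  split_ifs <;> rfl

variable {n : ℕ} {ω : Eg → Bool} {h : ℕ → ℕ → ℤ}

theorem inc01 (hh : Hgt n ω h) {e : Eg} (he : Rel n e) : inc h e = 0 ∨ inc h e = 1 := by
  have := hh.nn e he
  have := hh.le e he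
  omega

/-- the four edges at an interior vertex -/
theorem rel4 {x y : ℕ} (hv : Ivx n (x + 1, y + 1)) :
    Rel n (x, y + 1, false) ∧ Rel n (x + 1, y, true) ∧ Rel n (x + 1, y + 1, false) ∧
    Rel n (x + 1, y + 1, true) := by
  unfold Ivx at hv
  simp only at hv
  unfold Rel
  simp only [Bool.false_eq_true, if_false, if_true]
  omega

theorem conserve {x y : ℕ} :
    inc h (x, y + 1, false) + inc h (x + 1, y, true) =
      inc h (x + 1, y + 1, false) + inc h (x + 1, y + 1, true) := by
  unfold inc
  simp only [Bool.false_eq_true, if_false, if_true, Nat.add_sub_cancel]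
  ring

theorem us_nx (hh : Hgt n ω h) {e : Eg} (he : Us n h e) (hi : Ivx n (hd e)) :
    Us n h (nx n h e) := by
  classical
  obtain ⟨X, Y, b⟩ := e
  unfold nx
  split_ifs with hc
  · exact hc
  · cases b
    · -- right edge
      simp only [hd, Bool.false_eq_true, if_false] at hi hc ⊢
      have hY : 1 ≤ Y := hi.2.2.1
      obtain ⟨y, rfl⟩ : ∃ y, Y = y + 1 := ⟨Y - 1, by omega⟩
      obtain ⟨r1, r2, r3, r4⟩ := rel4 hi
      have hcons := conserve (h := h) (x := X) (y := y)
      have h1 : inc h (X, y + 1, false) = 0 := he.2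
      have h2 := inc01 hh r2
      have h3 : inc h (X + 1, y + 1, false) = 1 := by
        rcases inc01 hh r3 with h3 | h3
        · exact absurd ⟨r3, h3⟩ hc
        · exact h3
      have h4 := inc01 hh r4
      refine ⟨r4, ?_⟩
      simp only [Bool.not_false]
      omega
    · simp only [hd, if_true] at hi hc ⊢
      have hX : 1 ≤ X := hi.1
      obtain ⟨x, rfl⟩ : ∃ x, X = x + 1 := ⟨X - 1, by omega⟩
      obtain ⟨r1, r2, r3, r4⟩ := rel4 hi
      have hcons := conserve (h := h) (x := x) (y := Y)
      have h1 : inc h (x + 1, Y, true) = 0 := he.2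
      have h2 := inc01 hh r1
      have h3 : inc h (x + 1, Y + 1, true) = 1 := by
        rcases inc01 hh r4 with h3 | h3
        · exact absurd ⟨r4, h3⟩ hc
        · exact h3
      have h4 := inc01 hh r3
      refine ⟨r3, ?_⟩
      simp only [Bool.not_true]
      omega

theorem nx_inj (hh : Hgt n ω h) {e f : Eg} (he : Us n h e) (hf : Us n h f)
    (hi : Ivx n (hd e)) (hj : Ivx n (hd f)) (hef : nx n h e = nx n h f) : e = f := by
  classical
  have hv : hd e = hd f := by rw [← tl_nx n h e, ← tl_nx n h f, hef]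
  obtain ⟨X, Y, b⟩ := e
  obtain ⟨X', Y', b'⟩ := f
  cases b <;> cases b'
  · simp only [hd, Bool.false_eq_true, if_false, Prod.mk.injEq] at hv
    simp only [Prod.mk.injEq, and_true]
    omega
  · exfalso
    simp only [hd, Bool.false_eq_true, if_false, if_true, Prod.mk.injEq] at hv hi
    obtain ⟨hv1, hv2⟩ := hv
    subst hv1
    subst hv2
    obtain ⟨r1, r2, r3, r4⟩ := rel4 hi
    have hcons := conserve (h := h) (x := X) (y := Y')
    have h1 : inc h (X, Y' + 1, false) = 0 := he.2
    have h2 : inc h (X + 1, Y', true) = 0 := hf.2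
    have h3 := hh.nn _ r3
    have h4 := hh.nn _ r4
    have u3 : Us n h (X + 1, Y' + 1, false) := ⟨r3, by omega⟩
    have u4 : Us n h (X + 1, Y' + 1, true) := ⟨r4, by omega⟩
    unfold nx at hef
    simp only [hd, Bool.false_eq_true, if_false, if_true, if_pos u3, if_pos u4,
      Prod.mk.injEq] at hef
    exact absurd hef.2.2 (by simp)
  · exfalso
    simp only [hd, Bool.false_eq_true, if_false, if_true, Prod.mk.injEq] at hv hj
    obtain ⟨hv1, hv2⟩ := hv
    subst hv1
    subst hv2
    obtain ⟨r1, r2, r3, r4⟩ := rel4 hj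
    have hcons := conserve (h := h) (x := X') (y := Y)
    have h1 : inc h (X', Y + 1, false) = 0 := hf.2
    have h2 : inc h (X' + 1, Y, true) = 0 := he.2
    have h3 := hh.nn _ r3
    have h4 := hh.nn _ r4
    have u3 : Us n h (X' + 1, Y + 1, false) := ⟨r3, by omega⟩
    have u4 : Us n h (X' + 1, Y + 1, true) := ⟨r4, by omega⟩
    unfold nx at hef
    simp only [hd, Bool.false_eq_true, if_false, if_true, if_pos u3, if_pos u4,
      Prod.mk.injEq] at hef
    exact absurd hef.2.2 (by simp)
  · simp only [hd, if_true, Prod.mk.injEq] at hv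
    simp only [Prod.mk.injEq, and_true]
    omega

/-- the flow line from `e` -/
noncomputable def pth (n : ℕ) (h : ℕ → ℕ → ℤ) : ℕ → Eg → List Eg
  | 0, e => [e]
  | k + 1, e => if Ivx n (hd e) then e :: pth n h k (nx n h e) else [e]

theorem head_pth (k : ℕ) (e : Eg) : (pth n h k e).head? = some e := by
  cases k with
  | zero => rfl
  | succ k => unfold pth; split_ifs <;> rfl

theorem pth_ne (k : ℕ) (e : Eg) : pth n h k e ≠ [] := by
  intro hc
  have := head_pth (n := n) (h := h) k e
  rw [hc] at this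
  simp at this

theorem chain_pth (k : ℕ) (e : Eg) : (pth n h k e).IsChain (fun e f => hd e = tl f) := by
  induction k generalizing e with
  | zero => exact List.isChain_singleton _
  | succ k ih =>
    unfold pth
    split_ifs with hc
    · rw [List.isChain_cons]
      refine ⟨fun f hf => ?_, ih _⟩
      rw [head_pth] at hf
      simp only [Option.mem_def, Option.some.injEq] at hf
      rw [← hf, tl_nx]
    · exact List.isChain_singleton _

theorem mem_pth (k : ℕ) (e f : Eg) (hf : f ∈ pth n h k e) :
    f = e ∨ ∃ g ∈ pth n h k e, Ivx n (hd g) ∧ f = nx n h g := by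
  induction k generalizing e with
  | zero => left; simpa [pth] using hf
  | succ k ih =>
    unfold pth at hf ⊢
    split_ifs at hf ⊢ with hc
    · rcases List.mem_cons.1 hf with hf | hf
      · exact Or.inl hf
      · right
        rcases ih _ hf with h1 | ⟨g, hg, h2, h3⟩
        · exact ⟨e, List.mem_cons_self, hc, h1⟩
        · exact ⟨g, List.mem_cons_of_mem _ hg, h2, h3⟩
    · left; simpa using hf

theorem us_pth (hh : Hgt n ω h) (k : ℕ) (e : Eg) (he : Us n h e) :
    ∀ f ∈ pth n h k e, Us n h f := by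
  induction k generalizing e with
  | zero => intro f hf; simp [pth] at hf; rw [hf]; exact he
  | succ k ih =>
    intro f hf
    unfold pth at hf
    split_ifs at hf with hc
    · rcases List.mem_cons.1 hf with hf | hf
      · rw [hf]; exact he
      · exact ih _ (us_nx hh he hc) f hf
    · simp at hf; rw [hf]; exact he


/-- the head of a flow edge is interior or a target -/
theorem hd_us {e : Eg} (he : Rel n e) (hi : ¬ Ivx n (hd e)) : hd e ∈ Tn n := by
  unfold Rel at he
  unfold Ivx at hi
  unfold Tn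
  simp only [Set.mem_ofPred_eq]
  obtain ⟨X, Y, b⟩ := e
  cases b
  · simp only [hd, Bool.false_eq_true, if_false] at he hi ⊢
    omega
  · simp only [hd, if_true] at he hi ⊢
    omega

theorem last_pth (hh : Hgt n ω h) (k : ℕ) (e : Eg) (he : Us n h e)
    (hk : 2 * n ≤ (hd e).1 + (hd e).2 + k) :
    ∀ f ∈ (pth n h k e).getLast?, hd f ∈ Tn n := by
  induction k generalizing e with
  | zero =>
    intro f hf
    simp [pth] at hf
    subst hf
    refine hd_us he.1 ?_
    intro hc
    unfold Ivx at hc
    omega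
  | succ k ih =>
    intro f hf
    unfold pth at hf
    split_ifs at hf with hc
    · have h1 : (pth n h k (nx n h e)) ≠ [] := pth_ne _ _
      obtain ⟨a, l, hal⟩ := List.exists_cons_of_ne_nil h1
      rw [hal, List.getLast?_cons_cons, ← hal] at hf
      refine ih _ (us_nx hh he hc) ?_ f hf
      have h2 : (hd (nx n h e)).1 + (hd (nx n h e)).2 = (hd e).1 + (hd e).2 + 1 := by
        have h3 := tl_nx n h e
        rcases hd_cases (nx n h e) with h4 | h4 <;> rw [h4, ← h3] <;> unfold tl <;> simp only <;> omega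
      omega
    · simp at hf
      subst hf
      exact hd_us he.1 hc

theorem rel_hd {e : Eg} (he : Rel n e) : (hd e).1 < n ∧ (hd e).2 < n := by
  unfold Rel at he
  rcases hd_cases e with h0 | h0 <;> rw [h0] <;> simp only <;> omega

/-- **Flow lines.** -/
theorem flow_paths (hh : Hgt n ω h) (A : Finset Eg) (hA : ∀ e ∈ A, Us n h e)
    (hAt : ∀ e ∈ A, tl e ∈ Sn n) (hAi : ∀ e ∈ A, ¬ Ivx n (tl e)) : Dis n ω A.card := by
  classical
  obtain ⟨φ, hφ⟩ : ∃ φ : Fin A.card → Eg, φ = fun i => (A.equivFin.symm i : Eg) := ⟨_, rfl⟩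
  have hφA : ∀ i, φ i ∈ A := fun i => by rw [hφ]; exact (A.equivFin.symm i).2
  have hφi : Function.Injective φ := by
    intro i j hij
    rw [hφ] at hij
    exact A.equivFin.symm.injective (Subtype.ext hij)
  refine ⟨fun i => pth n h (2 * n) (φ i), fun i => ?_, fun i j hij => ?_⟩
  · have hu := us_pth hh (2 * n) (φ i) (hA _ (hφA i))
    refine ⟨pth_ne _ _, fun e he => ?_, chain_pth _ _, ?_, ?_⟩
    · have h1 := hu e he
      refine ⟨?_, rel_hd h1.1⟩
      by_contra hc
      have h2 := hh.cl e h1.1 (by simpa using hc)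
      have h3 := h1.2
      omega
    · intro e he
      rw [head_pth] at he
      simp only [Option.mem_def, Option.some.injEq] at he
      rw [← he]
      exact hAt _ (hφA i)
    · exact last_pth hh (2 * n) (φ i) (hA _ (hφA i)) (by omega)
  · -- disjointness
    have key : ∀ (m : ℕ) (f : Eg), (tl f).1 + (tl f).2 = m → f ∈ pth n h (2 * n) (φ i) →
        f ∈ pth n h (2 * n) (φ j) → False := by
      intro m
      induction m using Nat.strong_induction_on with
      | _ m ih =>
        intro f hfm hfi hfj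
        rcases mem_pth _ _ _ hfi with h1 | ⟨g, hg, h2, h3⟩
        · rcases mem_pth _ _ _ hfj with h4 | ⟨g', hg', h5, h6⟩
          · exact hij (hφi (h1.symm.trans h4))
          · apply hAi (φ i) (hφA i)
            rw [← h1, h6, tl_nx]
            exact h5
        · rcases mem_pth _ _ _ hfj with h4 | ⟨g', hg', h5, h6⟩
          · apply hAi (φ j) (hφA j)
            rw [← h4, h3, tl_nx]
            exact h2
          · have u1 := us_pth hh _ _ (hA _ (hφA i)) g hg
            have u2 := us_pth hh _ _ (hA _ (hφA j)) g' hg'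
            have h7 := nx_inj hh u1 u2 h2 h5 (h3.symm.trans h6)
            subst h7
            refine ih _ ?_ g rfl hg hg'
            have h8 : tl f = hd g := by rw [h3, tl_nx]
            rw [← hfm, h8]
            rcases hd_cases g with h9 | h9 <;> rw [h9] <;> unfold tl <;> simp only <;> omega
    rw [List.disjoint_left]
    intro f hfi hfj
    exact key _ f rfl hfi hfj

/-- **The flow bound.** -/
theorem flow (hh : Hgt n ω h) (hn : 2 ≤ n) :
    2 * ((n : ℤ) - 2) - (h (n - 2) 0 - h 0 (n - 2)) ≤ Vn n ω := by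
  classical
  obtain ⟨N, rfl⟩ : ∃ N, n = N + 2 := ⟨n - 2, by omega⟩
  rw [Nat.add_sub_cancel]
  -- the entry edges
  obtain ⟨A1, hA1⟩ : ∃ A1 : Finset Eg, A1 = ((Finset.range N).filter
    (fun y => inc h (0, y + 1, false) = 0)).image (fun y => ((0, y + 1, false) : Eg)) := ⟨_, rfl⟩
  obtain ⟨A2, hA2⟩ : ∃ A2 : Finset Eg, A2 = ((Finset.range N).filter
    (fun x => inc h (x + 1, 0, true) = 0)).image (fun x => ((x + 1, 0, true) : Eg)) := ⟨_, rfl⟩
  have r1 : ∀ y < N, Rel (N + 2) (0, y + 1, false) := by
    intro y hy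
    unfold Rel
    simp only [Bool.false_eq_true, if_false]
    omega
  have r2 : ∀ x < N, Rel (N + 2) (x + 1, 0, true) := by
    intro y hy
    unfold Rel
    simp only [if_true]
    omega
  have c1 : (A1.card : ℤ) = ∑ y ∈ Finset.range N, (1 - inc h (0, y + 1, false)) := by
    rw [hA1, Finset.card_image_of_injective _ (fun a b hab => by simpa using hab),
      Finset.card_filter]
    push_cast
    refine Finset.sum_congr rfl fun y hy => ?_
    rcases inc01 hh (r1 y (Finset.mem_range.1 hy)) with h1 | h1 <;> rw [h1] <;> simp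
  have c2 : (A2.card : ℤ) = ∑ x ∈ Finset.range N, (1 - inc h (x + 1, 0, true)) := by
    rw [hA2, Finset.card_image_of_injective _ (fun a b hab => by simpa using hab),
      Finset.card_filter]
    push_cast
    refine Finset.sum_congr rfl fun y hy => ?_
    rcases inc01 hh (r2 y (Finset.mem_range.1 hy)) with h1 | h1 <;> rw [h1] <;> simp
  have s1 : ∑ y ∈ Finset.range N, (1 - inc h (0, y + 1, false)) = N - (h 0 0 - h 0 N) := by
    rw [Finset.sum_sub_distrib]
    simp only [Finset.sum_const, Finset.card_range, nsmul_eq_mul, mul_one]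
    congr 1
    unfold inc
    simp only [Bool.false_eq_true, if_false, Nat.add_sub_cancel]
    have := Finset.sum_range_sub' (fun y => h 0 y) N
    simpa using this
  have s2 : ∑ x ∈ Finset.range N, (1 - inc h (x + 1, 0, true)) = N - (h N 0 - h 0 0) := by
    rw [Finset.sum_sub_distrib]
    simp only [Finset.sum_const, Finset.card_range, nsmul_eq_mul, mul_one]
    congr 1
    unfold inc
    simp only [if_true, Nat.add_sub_cancel]
    have := Finset.sum_range_sub (fun x => h x 0) N
    simpa using this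
  have hdis : Disjoint A1 A2 := by
    rw [Finset.disjoint_left]
    intro e he1 he2
    rw [hA1, Finset.mem_image] at he1
    rw [hA2, Finset.mem_image] at he2
    obtain ⟨y, -, rfl⟩ := he1
    obtain ⟨x, -, hx⟩ := he2
    simp at hx
  have hmem : ∀ e ∈ A1 ∪ A2, Us (N + 2) h e ∧ tl e ∈ Sn (N + 2) ∧ ¬ Ivx (N + 2) (tl e) := by
    intro e he
    rw [Finset.mem_union] at he
    rcases he with he | he
    · rw [hA1, Finset.mem_image] at he
      obtain ⟨y, hy, rfl⟩ := he
      rw [Finset.mem_filter, Finset.mem_range] at hy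
      refine ⟨⟨r1 y hy.1, hy.2⟩, ?_, ?_⟩
      · have hy1 := hy.1
        exact Or.inl ⟨rfl, by simp only [tl]; omega⟩
      · intro hc
        unfold Ivx tl at hc
        simp only at hc
        omega
    · rw [hA2, Finset.mem_image] at he
      obtain ⟨y, hy, rfl⟩ := he
      rw [Finset.mem_filter, Finset.mem_range] at hy
      refine ⟨⟨r2 y hy.1, hy.2⟩, ?_, ?_⟩
      · have hy1 := hy.1
        exact Or.inr ⟨rfl, by simp only [tl]; omega⟩
      · intro hc
        unfold Ivx tl at hc
        simp only at hc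
        omega
  have hD := flow_paths hh (A1 ∪ A2) (fun e he => (hmem e he).1) (fun e he => (hmem e he).2.1)
    (fun e he => (hmem e he).2.2)
  have hV := le_Vn hn hD
  rw [Finset.card_union_of_disjoint hdis] at hV
  have hV2 : ((A1.card + A2.card : ℕ) : ℤ) ≤ Vn (N + 2) ω := by exact_mod_cast hV
  push_cast at hV2 ⊢
  rw [c1, c2, s1, s2] at hV2
  linarith

end Pool.Agent.X133.OP
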