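import Pool.Agent.W56.LP.GT
import Pool.Agent.W85.LP.VB
import Pool.Agent.W346.LP.SW
import Pool.Agent.W654.LP.Exit
import Pool.Agent.W166.LP.Kol
import Pool.Agent.W179.LP.VarId
import Pool.Agent.W576.LP.VarCmp
import Pool.Agent.W925.LP.T1
import Pool.Agent.W634.LP.Burke
import Pool.Agent.W692.LP.A
import Pool.Agent.W990.LP.Mom
import Pool.Agent.W589.LP.D1
import Pool.Agent.W589.LP.D2
import Pool.Agent.W370.LP.Paths
import Pool.Agent.W335.LP.Cpl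
import Pool.Agent.W999.LP.GK
import Pool.Agent.W45.LP.G0

/-!
# The constant of geometric last passage percolation (from the starting library `W533/LP`)
-/

set_option autoImplicit false

namespace Pool.Agent.X133.OP

open MeasureTheory ProbabilityTheory Pool.Agent.W533.LP

theorem varId : PVarId := Pool.Agent.W179.LP.pVarId Pool.Agent.W692.LP.aMeas
  Pool.Agent.W692.LP.aOps Pool.Agent.W589.LP.dTransp Pool.Agent.W589.LP.dSlope
  Pool.Agent.W990.LP.Mom.pMom (Pool.Agent.W634.LP.pBurke Pool.Agent.W692.LP.pBlock)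

theorem t1 : PT1 := Pool.Agent.W925.LP.pT1 varId
  (Pool.Agent.W576.LP.pVarCmp varId Pool.Agent.W335.LP.pCouple Pool.Agent.W692.LP.aLaw
    Pool.Agent.W589.LP.dSlopeMono Pool.Agent.W589.LP.dTransp Pool.Agent.W692.LP.aMeas
    Pool.Agent.W990.LP.Mom.pMom)
  Pool.Agent.W335.LP.pCouple Pool.Agent.W692.LP.aLaw Pool.Agent.W990.LP.Mom.pMom
  Pool.Agent.W589.LP.dIncl Pool.Agent.W692.LP.aMeas

theorem vb : PVB := Pool.Agent.W85.LP.VB.pVB t1 varId Pool.Agent.W990.LP.Mom.pMom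

theorem gt : PGT := Pool.Agent.W56.LP.GT.pGT
  (Pool.Agent.W654.LP.pExit t1 vb Pool.Agent.W589.LP.dTransp Pool.Agent.W692.LP.aOps)
  (Pool.Agent.W346.LP.pSW vb varId Pool.Agent.W335.LP.pCouple Pool.Agent.W692.LP.aLaw
    Pool.Agent.W589.LP.dMax Pool.Agent.W589.LP.dMono Pool.Agent.W589.LP.dTransp
    Pool.Agent.W692.LP.aMeas Pool.Agent.W692.LP.aOps)
  (Pool.Agent.W634.LP.pBurke Pool.Agent.W692.LP.pBlock)
  (Pool.Agent.W166.LP.Kol.pKol Pool.Agent.W990.LP.Mom.pMom)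
  Pool.Agent.W990.LP.Mom.pMom Pool.Agent.W692.LP.pTransfer Pool.Agent.W692.LP.aSys
  Pool.Agent.W692.LP.aOps Pool.Agent.W692.LP.aMeas Pool.Agent.W589.LP.dCut
  Pool.Agent.W589.LP.dSlope Pool.Agent.W370.LP.dExit Pool.Agent.W370.LP.dRot
  Pool.Agent.W589.LP.dSand Pool.Agent.W589.LP.dTransp

/-- a stationary system at the characteristic parameter -/
theorem exists_sys (q : ℝ) (h0 : 0 < q) (h1 : q < 1) :
    ∃ (Ω : Type) (_ : MeasurableSpace Ω) (μ : Measure Ω) (I J : ℕ → Ω → ℕ)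
    (W : ℕ → ℕ → Ω → ℕ), Sys0 μ q (Real.sqrt q) I J W ∧ Bulk μ q W := by
  have hs : Real.sqrt q * Real.sqrt q = q := Real.mul_self_sqrt h0.le
  have hs0 : 0 < Real.sqrt q := Real.sqrt_pos.2 h0
  have hs1 : Real.sqrt q < 1 := by nlinarith
  have hqs : q < Real.sqrt q := by nlinarith
  obtain ⟨Ω, mΩ, μ, I, J, W, X, hX⟩ := Pool.Agent.W692.LP.aSys (κ := Empty) q (Real.sqrt q)
    (fun _ => 0) h0 hqs hs1 (fun k => k.elim)
  have h2 := (Pool.Agent.W692.LP.aOps μ q).1 _ _ _ _ _ _ hX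
  exact ⟨Ω, mΩ, μ, I, J, W, h2.1, h2.2⟩

theorem map_bulk {Ω : Type} [MeasurableSpace Ω] {μ : Measure Ω} {q : ℝ} {W : ℕ → ℕ → Ω → ℕ}
    (hW : Bulk μ q W) (n : ℕ) :
    Measurable (fun (ω : Ω) (v : V n) => W v.1 v.2 ω) ∧
    μ.map (fun (ω : Ω) (v : V n) => W v.1 v.2 ω) = muY q n ∧
    ∀ ω, Tc (fun v : V n => W v.1 v.2 ω) = Tr W n n ω := by
  have := hW.prob
  have hm : Measurable (fun (ω : Ω) (v : V n) => W v.1 v.2 ω) :=
    measurable_pi_lambda _ (fun v => hW.meas (((v.1 : ℕ), (v.2 : ℕ))))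
  refine ⟨hm, ?_, ?_⟩
  · have hind : iIndepFun (fun (v : V n) (ω : Ω) => W v.1 v.2 ω) μ := by
      refine hW.indep.precomp (g := fun v : V n => ((v.1 : ℕ), (v.2 : ℕ))) ?_
      intro v w hvw
      simp only [Prod.mk.injEq] at hvw
      exact Prod.ext (Fin.ext hvw.1) (Fin.ext hvw.2)
    have hae : ∀ v : V n, AEMeasurable (fun ω => W v.1 v.2 ω) μ :=
      fun v => (hW.meas (((v.1 : ℕ), (v.2 : ℕ)))).aemeasurable
    rw [iIndepFun_iff_map_fun_eq_pi_map hae] at hind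
    rw [hind, muY]
    congr 1
    funext v
    exact Pool.Agent.W999.LP.map_geo μ q _ (hW.meas (((v.1 : ℕ), (v.2 : ℕ))))
      (hW.law (((v.1 : ℕ), (v.2 : ℕ))))
  · intro ω
    unfold Tc Tr T
    refine Pool.Agent.W999.LP.G_congr _ _ _ _ _ _ ?_
    intro i hi j hj
    simp [ex, hi, hj]

theorem Tr_le {Ω : Type} (I J : ℕ → Ω → ℕ) (W : ℕ → ℕ → Ω → ℕ) (m n : ℕ) (ω : Ω) :
    Tr W m n ω ≤ Gr I J W m n ω := by
  unfold Tr Gr T
  exact Pool.Agent.W589.LP.dMono _ _ _ _ _ _ (fun k => by simp [ps, zero])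
    (fun k => by simp [ps, zero]) (fun i j => le_rfl) m n

theorem div_sqrt_self {q : ℝ} (h0 : 0 < q) : q / Real.sqrt q = Real.sqrt q := by
  rw [div_eq_iff (Real.sqrt_pos.2 h0).ne']
  exact (Real.mul_self_sqrt h0.le).symm

theorem geo_upper (q : ℝ) (h0 : 0 < q) (h1 : q < 1) (N : ℕ) :
    ∫ W, (Tc W : ℝ) ∂(muY q N) ≤ 2 * mean (Real.sqrt q) * N := by
  have hs : Real.sqrt q * Real.sqrt q = q := Real.mul_self_sqrt h0.le
  have hs0 : 0 < Real.sqrt q := Real.sqrt_pos.2 h0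
  have hs1 : Real.sqrt q < 1 := by nlinarith
  have hqs : q < Real.sqrt q := by nlinarith
  obtain ⟨Ω, mΩ, μ, I, J, W, hS, hB⟩ := exists_sys q h0 h1
  obtain ⟨hm, hmap, hT⟩ := map_bulk hB N
  obtain ⟨hG, hmean, -, -⟩ := varId μ q (Real.sqrt q) I J W h0 hqs hs1 hS N N
  have := hB.prob
  have hGi : Integrable (fun ω => (Gr I J W N N ω : ℝ)) μ :=
    hG.integrable (by norm_num)
  rw [← hmap, integral_map hm.aemeasurable (measurable_of_countable _).aestronglyMeasurable]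
  have h3 : ∫ ω, (Tc (fun v : V N => W v.1 v.2 ω) : ℝ) ∂μ ≤ ∫ ω, (Gr I J W N N ω : ℝ) ∂μ := by
    refine integral_mono_of_nonneg (Filter.Eventually.of_forall fun ω => by positivity) hGi
      (Filter.Eventually.of_forall fun ω => ?_)
    simp only [hT ω]
    exact_mod_cast Tr_le I J W N N ω
  refine h3.trans ?_
  rw [hmean, div_sqrt_self h0]
  apply le_of_eq
  ring

theorem geo_lower (q : ℝ) (h0 : 0 < q) (h1 : q < 1) (ε : ℝ) (hε : 0 < ε) :
    ∃ n0 : ℕ, ∀ N ≥ n0,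
      (muY q N).real {W | (Tc W : ℝ) < (2 * mean (Real.sqrt q) - ε) * N} ≤ ε := by
  have hs : Real.sqrt q * Real.sqrt q = q := Real.mul_self_sqrt h0.le
  have hs0 : 0 < Real.sqrt q := Real.sqrt_pos.2 h0
  have hs1 : Real.sqrt q < 1 := by nlinarith
  have hqs : q < Real.sqrt q := by nlinarith
  obtain ⟨Ω, mΩ, μ, I, J, W, hS, hB⟩ := exists_sys q h0 h1
  have := hB.prob
  obtain ⟨C, hC1, hGT⟩ := gt q h0 h1
  obtain ⟨Cv, hCv1, hVB⟩ := vb q h0 h1
  obtain ⟨b, hb⟩ : ∃ b, b = max 1 (2 * C / ε) := ⟨_, rfl⟩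
  have hb1 : 1 ≤ b := by rw [hb]; exact le_max_left _ _
  have hb2 : 2 * C / ε ≤ b := by rw [hb]; exact le_max_right _ _
  have hCb : C / b ^ 3 ≤ ε / 2 := by
    have h3 : b ≤ b ^ 3 := by
      have : 1 ≤ b ^ 2 := one_le_pow₀ hb1
      nlinarith
    calc C / b ^ 3 ≤ C / b := by
          apply div_le_div_of_nonneg_left (by linarith) (by linarith) h3
      _ ≤ ε / 2 := by
          rw [div_le_iff₀ (by linarith)]
          rw [div_le_iff₀ hε] at hb2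
          nlinarith
  -- large `N`
  have e1 : ∀ᶠ N : ℕ in Filter.atTop, C * b ≤ (N : ℝ) ^ (1 / 3 : ℝ) :=
    ((tendsto_rpow_atTop (by norm_num : (0 : ℝ) < 1 / 3)).comp
      tendsto_natCast_atTop_atTop).eventually_ge_atTop _
  have e2 : ∀ᶠ N : ℕ in Filter.atTop, C * b ^ 2 * (2 / ε) ≤ (N : ℝ) ^ (2 / 3 : ℝ) :=
    ((tendsto_rpow_atTop (by norm_num : (0 : ℝ) < 2 / 3)).comp
      tendsto_natCast_atTop_atTop).eventually_ge_atTop _
  have e3 : ∀ᶠ N : ℕ in Filter.atTop, Cv * (8 / ε ^ 3) ≤ (N : ℝ) ^ (4 / 3 : ℝ) :=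
    ((tendsto_rpow_atTop (by norm_num : (0 : ℝ) < 4 / 3)).comp
      tendsto_natCast_atTop_atTop).eventually_ge_atTop _
  obtain ⟨n0, hn0⟩ := Filter.eventually_atTop.1 (e1.and (e2.and (e3.and
    (Filter.eventually_ge_atTop 1))))
  refine ⟨n0, fun N hN => ?_⟩
  obtain ⟨g1, g2, g3, g4⟩ := hn0 N hN
  have hN0 : (0 : ℝ) < N := by exact_mod_cast g4
  obtain ⟨hm, hmap, hT⟩ := map_bulk hB N
  obtain ⟨hG, hmean, -, -⟩ := varId μ q (Real.sqrt q) I J W h0 hqs hs1 hS N N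
  have hP1 := hGT μ (Real.sqrt q) b I J W N N hb1 g1 g4 (by omega) (by omega)
    (by rw [sub_self, abs_zero, zero_mul]; linarith)
    (by rw [sub_self, abs_zero]; positivity) hS
  have hV := hVB μ (Real.sqrt q) I J W
    (by
      rw [sub_self, abs_zero]
      have : 0 < dd q := by
        unfold dd
        have : 0 < min (Real.sqrt q - q) (1 - Real.sqrt q) := lt_min (by linarith) (by linarith)
        linarith
      linarith) hS N N g4 (by omega) (by omega)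
  rw [sub_self, sub_self, abs_zero, mul_zero, add_zero, add_zero] at hV
  -- Chebyshev
  have hG2 : MemLp (fun ω => (Gr I J W N N ω : ℝ)) 2 μ := hG.mono_exponent (by norm_num)
  have hch := meas_ge_le_variance_div_sq hG2 (c := ε / 2 * N) (by positivity)
  have hch2 : μ.real {ω | ε / 2 * N ≤ |(Gr I J W N N ω : ℝ) - ∫ ω, (Gr I J W N N ω : ℝ) ∂μ|}
      ≤ ε / 2 := by
    rw [measureReal_def]
    refine ENNReal.toReal_le_of_le_ofReal (by positivity) (hch.trans ?_)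
    apply ENNReal.ofReal_le_ofReal
    rw [div_le_iff₀ (by positivity)]
    refine hV.trans ?_
    have h5 : (N : ℝ) ^ (2 / 3 : ℝ) * (N : ℝ) ^ (4 / 3 : ℝ) = (N : ℝ) ^ 2 := by
      rw [← Real.rpow_add hN0, ← Real.rpow_natCast]
      norm_num
    have h6 : 0 < (N : ℝ) ^ (2 / 3 : ℝ) := by positivity
    have h7 : Cv * (8 / ε ^ 3) * (N : ℝ) ^ (2 / 3 : ℝ) ≤ (N : ℝ) ^ 2 := by
      rw [← h5, mul_comm ((N : ℝ) ^ (2 / 3 : ℝ))]
      exact mul_le_mul_of_nonneg_right g3 h6.le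
    have h8 : Cv * (N : ℝ) ^ (2 / 3 : ℝ) ≤ ε ^ 3 / 8 * (N : ℝ) ^ 2 := by
      have : Cv * (N : ℝ) ^ (2 / 3 : ℝ) = ε ^ 3 / 8 * (Cv * (8 / ε ^ 3) * (N : ℝ) ^ (2 / 3 : ℝ)) := by
        field_simp
      rw [this]
      exact mul_le_mul_of_nonneg_left h7 (by positivity)
    calc Cv * (N : ℝ) ^ (2 / 3 : ℝ) ≤ ε ^ 3 / 8 * (N : ℝ) ^ 2 := h8
      _ = ε / 2 * (ε / 2 * N) ^ 2 := by ring
  rw [← hmap, map_measureReal_apply hm (DiscreteMeasurableSpace.forall_measurableSet _)]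
  have hsub : (fun (ω : Ω) (v : V N) => W v.1 v.2 ω) ⁻¹'
      {W | (Tc W : ℝ) < (2 * mean (Real.sqrt q) - ε) * N} ⊆
      {ω | (Tr W N N ω : ℝ) + C * b ^ 2 * (N : ℝ) ^ (1 / 3 : ℝ) ≤ Gr I J W N N ω} ∪
      {ω | ε / 2 * N ≤ |(Gr I J W N N ω : ℝ) - ∫ ω, (Gr I J W N N ω : ℝ) ∂μ|} := by
    intro ω hω
    simp only [Set.mem_preimage, Set.mem_ofPred_eq, hT ω] at hω
    by_cases hc : (Tr W N N ω : ℝ) + C * b ^ 2 * (N : ℝ) ^ (1 / 3 : ℝ) ≤ Gr I J W N N ω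
    · exact Or.inl hc
    · right
      push Not at hc
      simp only [Set.mem_ofPred_eq]
      rw [hmean, div_sqrt_self h0]
      have h5 : C * b ^ 2 * (N : ℝ) ^ (1 / 3 : ℝ) ≤ ε / 2 * N := by
        have h6 : (N : ℝ) ^ (2 / 3 : ℝ) * (N : ℝ) ^ (1 / 3 : ℝ) = N := by
          rw [← Real.rpow_add hN0]
          norm_num
        have h7 : 0 < (N : ℝ) ^ (1 / 3 : ℝ) := by positivity
        have h8 := mul_le_mul_of_nonneg_right g2 h7.le
        rw [h6] at h8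
        calc C * b ^ 2 * (N : ℝ) ^ (1 / 3 : ℝ)
            = ε / 2 * (C * b ^ 2 * (2 / ε) * (N : ℝ) ^ (1 / 3 : ℝ)) := by field_simp
          _ ≤ ε / 2 * N := mul_le_mul_of_nonneg_left h8 (by positivity)
      rw [abs_sub_comm]
      refine le_trans ?_ (le_abs_self _)
      nlinarith
  refine (measureReal_mono hsub).trans ((measureReal_union_le _ _).trans ?_)
  linarith

end Pool.Agent.X133.OP
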