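import Pool.Agent.X133.OP.Law
import Pool.Agent.X133.OP.Geo

/-!
# The longest strict chain
-/

set_option autoImplicit false

open scoped BigOperators ENNReal
open MeasureTheory ProbabilityTheory

namespace Pool.Agent.X133.OP

open Pool.Agent.W533.LP (V muY geoM Tc T G zero ex)

/-- strict chains of marked points of the box -/
def SC (N : ℕ) (η : V N → Bool) (m : ℕ) : Prop := ∃ s : List (ℕ × ℕ), s.length = m ∧
  s.Pairwise (fun a b => b.1 < a.1 ∧ b.2 < a.2) ∧
  ∀ z ∈ s, ∃ (h1 : z.1 < N) (h2 : z.2 < N), η (⟨z.1, h1⟩, ⟨z.2, h2⟩) = true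

theorem SC_le {N : ℕ} {η : V N → Bool} {m : ℕ} (h : SC N η m) : m ≤ N := by
  obtain ⟨s, rfl, h2, h3⟩ := h
  have h1 : (s.map Prod.fst).Nodup := by
    rw [List.Nodup, List.pairwise_map]
    exact h2.imp fun {a b} h => (ne_of_lt h.1).symm
  have h4 : (s.map Prod.fst).toFinset ⊆ Finset.range N := by
    intro x hx
    rw [List.mem_toFinset, List.mem_map] at hx
    obtain ⟨t, ht, rfl⟩ := hx
    rw [Finset.mem_range]
    exact (h3 t ht).1
  have h5 := Finset.card_le_card h4
  rwa [List.toFinset_card_of_nodup h1, List.length_map, Finset.card_range] at h5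

/-- the longest strict chain -/
noncomputable def Ls (N : ℕ) (η : V N → Bool) : ℕ := sSup {m | SC N η m}

theorem SC_bdd (N : ℕ) (η : V N → Bool) : BddAbove {m | SC N η m} := ⟨N, fun _ h => SC_le h⟩

theorem SC_Ls (N : ℕ) (η : V N → Bool) : SC N η (Ls N η) :=
  Nat.sSup_mem (s := {m | SC N η m})
    ⟨0, show SC N η 0 from ⟨[], rfl, List.Pairwise.nil, by simp⟩⟩ (SC_bdd N η)

theorem le_Ls {N : ℕ} {η : V N → Bool} {m : ℕ} (h : SC N η m) : m ≤ Ls N η :=
  le_csSup (SC_bdd N η) h

theorem Ls_le (N : ℕ) (η : V N → Bool) : Ls N η ≤ N := SC_le (SC_Ls N η)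

/-! ### the two fields -/

/-- edges for the lower field -/
def fL (n : ℕ) (v : V (n - 2) × Bool) : Eg := ((v.1.1 : ℕ) + 1, n - 2 - (v.1.2 : ℕ), v.2)

/-- edges for the upper field -/
def fU (n : ℕ) (v : V (n - 1) × Bool) : Eg := ((v.1.1 : ℕ), n - 2 - (v.1.2 : ℕ), v.2)

/-- lower field -/
def etaL (n : ℕ) (ω : Eg → Bool) (v : V (n - 2)) : Bool :=
  !(ω (fL n (v, false)) && ω (fL n (v, true)))

/-- upper field -/
def etaU (n : ℕ) (ω : Eg → Bool) (v : V (n - 1)) : Bool :=
  !(ω (fU n (v, false)) && ω (fU n (v, true)))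

theorem fL_inj (n : ℕ) : Function.Injective (fL n) := by
  rintro ⟨⟨a, b⟩, c⟩ ⟨⟨a', b'⟩, c'⟩ h
  simp only [fL, Prod.mk.injEq] at h
  obtain ⟨h1, h2, h3⟩ := h
  have := b.2
  have := b'.2
  simp only [Prod.mk.injEq]
  exact ⟨⟨Fin.ext (by omega), Fin.ext (by omega)⟩, h3⟩

theorem fU_inj (n : ℕ) : Function.Injective (fU n) := by
  rintro ⟨⟨a, b⟩, c⟩ ⟨⟨a', b'⟩, c'⟩ h
  simp only [fU, Prod.mk.injEq] at h
  obtain ⟨h1, h2, h3⟩ := h
  have := b.2
  have := b'.2
  simp only [Prod.mk.injEq]
  exact ⟨⟨Fin.ext (by omega), Fin.ext (by omega)⟩, h3⟩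

/-- **Upper bound for the flow.** -/
theorem cut_Ls {n : ℕ} (hn : 2 ≤ n) (ω : Eg → Bool) :
    Vn n ω + Ls (n - 2) (etaL n ω) ≤ 2 * (n - 1) := by
  classical
  obtain ⟨s, hs1, hs2, hs3⟩ := SC_Ls (n - 2) (etaL n ω)
  have hb : ∀ z : ℕ × ℕ, ∃ b : Bool, z ∈ s → ω (z.1 + 1, n - 2 - z.2, b) = false := by
    intro z
    by_cases hz : z ∈ s
    · obtain ⟨h1, h2, h3⟩ := hs3 z hz
      simp only [etaL, fL, Bool.not_eq_true', Bool.and_eq_false_iff] at h3
      rcases h3 with h3 | h3
      · exact ⟨false, fun _ => h3⟩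
      · exact ⟨true, fun _ => h3⟩
    · exact ⟨true, fun h => absurd h hz⟩
  choose b hb using hb
  obtain ⟨u, hu⟩ : ∃ u : List Eg, u = (s.map (fun z => ((z.1 + 1, n - 2 - z.2, b z) : Eg))).reverse :=
    ⟨_, rfl⟩
  have h1 := cut hn ω u ?_ ?_ (Vn n ω) (dis_Vn hn ω)
  · rwa [hu, List.length_reverse, List.length_map, hs1] at h1
  · rw [hu, List.pairwise_reverse, List.pairwise_map]
    refine hs2.imp_of_mem ?_
    intro z w hz hw h
    obtain ⟨h1, h2, -⟩ := hs3 z hz
    simp only
    omega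
  · intro e he
    rw [hu, List.mem_reverse, List.mem_map] at he
    obtain ⟨z, hz, rfl⟩ := he
    obtain ⟨h1, h2, -⟩ := hs3 z hz
    refine ⟨hb z hz, ?_⟩
    simp only
    omega

/-- **Lower bound for the flow.** -/
theorem flow_Ls {n : ℕ} (hn : 2 ≤ n) (ω : Eg → Bool) : ∃ r : List Eg, r.Nodup ∧
    (∀ e ∈ r, ω e = false ∧ e.1 < n - 1 ∧ e.2.1 < n - 1) ∧
    cst (r.map (pos n)) ≤ r.length ∧
    2 * ((n : ℤ) - 2) ≤ Vn n ω + Ls (n - 1) (etaU n ω) + an (r.map (pos n)) := by
  obtain ⟨r, h1, h2, h3, s, s1, s2, s3⟩ := flow_det hn ω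
  have h4 : ∀ e ∈ r, ω e = false ∧ e.1 < n - 1 ∧ e.2.1 < n - 1 := by
    intro e he
    have := (h2 e he).1
    unfold Rel at this
    exact ⟨(h2 e he).2, by omega, by omega⟩
  refine ⟨r, h1, h4, h3, ?_⟩
  have hSC : SC (n - 1) (etaU n ω) s.length := by
    refine ⟨s, rfl, s1, fun z hz => ?_⟩
    have h5 := s2 z hz
    rw [List.mem_map] at h5
    obtain ⟨e, he, rfl⟩ := h5
    obtain ⟨g1, g2, g3⟩ := h4 e he
    obtain ⟨x, y, b⟩ := e
    simp only at g2 g3
    refine ⟨?_, ?_, ?_⟩
    · simp only [pos]; omega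
    · simp only [pos]; omega
    · simp only [etaU, fU, pos, Bool.not_eq_true', Bool.and_eq_false_iff]
      have : n - 2 - (n - 2 - y) = y := by omega
      rw [this]
      cases b
      · exact Or.inl g1
      · exact Or.inr g1
  have h6 := le_Ls hSC
  have h7 : (s.length : ℤ) ≤ Ls (n - 1) (etaU n ω) := by exact_mod_cast h6
  omega

/-! ### geometric last passage times and chains -/

/-- an optimal path as a list of positions -/
theorem geod_list (W : ℕ → ℕ → ℕ) (m n : ℕ) : ∃ p : List (ℕ × ℕ),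
    p.Pairwise (fun a b => b.1 ≤ a.1 ∧ b.2 ≤ a.2) ∧ (∀ z ∈ p, z.1 < m ∧ z.2 < n) ∧
    (∀ z, p.count z ≤ W z.1 z.2) ∧ p.length = T W m n := by
  induction m generalizing n with
  | zero =>
    have h0 : T W 0 n = 0 := by
      unfold T
      induction n with
      | zero => simp [G]
      | succ n ih => simp only [G, zero, add_zero]; exact ih
    exact ⟨[], List.Pairwise.nil, by simp, by simp, h0.symm⟩
  | succ m ihm =>
    induction n with
    | zero =>
      have h0 : T W (m + 1) 0 = 0 := by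
        have : ∀ k, G zero zero W k 0 = 0 := by
          intro k
          induction k with
          | zero => simp [G]
          | succ k ih => simp only [G, zero, add_zero]; exact ih
        exact this _
      exact ⟨[], List.Pairwise.nil, by simp, by simp, h0.symm⟩
    | succ n ihn =>
      have key : ∃ p : List (ℕ × ℕ),
          p.Pairwise (fun a b => b.1 ≤ a.1 ∧ b.2 ≤ a.2) ∧ (∀ z ∈ p, z.1 ≤ m ∧ z.2 ≤ n ∧ z ≠ (m, n)) ∧
          (∀ z, p.count z ≤ W z.1 z.2) ∧ p.length = max (T W m (n + 1)) (T W (m + 1) n) := by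
        rcases le_total (T W m (n + 1)) (T W (m + 1) n) with h | h
        · obtain ⟨p, h1, h2, h3, h4⟩ := ihn
          refine ⟨p, h1, fun z hz => ?_, h3, by rw [h4, max_eq_right h]⟩
          have := h2 z hz
          refine ⟨by omega, by omega, ?_⟩
          rintro rfl
          simp only at this
          omega
        · obtain ⟨p, h1, h2, h3, h4⟩ := ihm (n + 1)
          refine ⟨p, h1, fun z hz => ?_, h3, by rw [h4, max_eq_left h]⟩
          have := h2 z hz
          refine ⟨by omega, by omega, ?_⟩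
          rintro rfl
          simp only at this
          omega
      obtain ⟨p, h1, h2, h3, h4⟩ := key
      refine ⟨List.replicate (W m n) (m, n) ++ p, ?_, ?_, ?_, ?_⟩
      · rw [List.pairwise_append]
        refine ⟨?_, h1, ?_⟩
        · exact List.pairwise_replicate.2 (Or.inr ⟨le_rfl, le_rfl⟩)
        · intro a ha b hb
          rw [List.eq_of_mem_replicate ha]
          exact ⟨(h2 b hb).1, (h2 b hb).2.1⟩
      · intro z hz
        rw [List.mem_append] at hz
        rcases hz with hz | hz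
        · rw [List.eq_of_mem_replicate hz]
          simp only
          omega
        · have := h2 z hz
          omega
      · intro z
        rw [List.count_append]
        by_cases hz : z = (m, n)
        · subst hz
          rw [List.count_replicate_self, List.count_eq_zero_of_not_mem
            (fun hc => (h2 _ hc).2.2 rfl)]
          simp
        · rw [List.count_replicate, if_neg (by simpa using fun h => hz h.symm), zero_add]
          exact h3 z
      · rw [List.length_append, List.length_replicate, h4]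
        unfold T
        simp only [G]
        omega

theorem cst_mono (p : List (ℕ × ℕ)) (h : p.Pairwise (fun a b => b.1 ≤ a.1 ∧ b.2 ≤ a.2)) :
    cst p = 0 := by
  induction p with
  | nil => rfl
  | cons a p ih =>
    cases p with
    | nil => rfl
    | cons b p =>
      rw [List.pairwise_cons] at h
      have h1 := h.1 b (by simp)
      have h2 := ih h.2
      simp only [cst]
      omega

/-- position of a site -/
def ps {N : ℕ} (v : V N) : ℕ × ℕ := ((v.1 : ℕ), (v.2 : ℕ))

theorem ps_inj {N : ℕ} : Function.Injective (ps : V N → ℕ × ℕ) := by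
  rintro ⟨a, b⟩ ⟨a', b'⟩ h
  simp only [ps, Prod.mk.injEq] at h
  simp only [Prod.mk.injEq]
  exact ⟨Fin.ext h.1, Fin.ext h.2⟩

/-- the last passage time is the length of a monotone list of sites, and it is close to the
length of a strict chain -/
theorem Tc_list (N : ℕ) (g : V N → ℕ) : ∃ l : List (V N),
    (l.map ps).Pairwise (fun a b => b.1 ≤ a.1 ∧ b.2 ≤ a.2) ∧ (∀ v, l.count v ≤ g v) ∧
    l.length = Tc g ∧ Tc g ≤ Ls N (fun v => decide (1 ≤ g v)) + an (l.map ps) := by
  obtain ⟨p, h1, h2, h3, h4⟩ := geod_list (ex g) N N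
  obtain ⟨l, hl⟩ : ∃ l : List (V N), l.map ps = p := by
    have : p ∈ Set.range (List.map (ps : V N → ℕ × ℕ)) := by
      rw [Set.range_list_map]
      intro z hz
      have := h2 z hz
      exact ⟨(⟨z.1, this.1⟩, ⟨z.2, this.2⟩), rfl⟩
    exact this
  subst hl
  have hc : ∀ v, l.count v ≤ g v := by
    intro v
    have h5 := h3 (ps v)
    have h6 : ex g (ps v).1 (ps v).2 = g v := by
      unfold ex ps
      simp
    rw [h6] at h5
    have h7 := List.count_map_of_injective l ps ps_inj v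
    rw [h7] at h5
    convert h5
  have hlen : l.length = Tc g := by rw [← List.length_map, h4]; rfl
  refine ⟨l, h1, hc, hlen, ?_⟩
  obtain ⟨s, s1, s2, -, s3⟩ := stack (l.map ps)
  rw [cst_mono _ h1, List.length_map, hlen, add_zero] at s3
  have hSC : SC N (fun v => decide (1 ≤ g v)) s.length := by
    refine ⟨s, rfl, s1, fun z hz => ?_⟩
    have h5 := s2 z hz
    rw [List.mem_map] at h5
    obtain ⟨v, hv, rfl⟩ := h5
    refine ⟨v.1.2, v.2.2, ?_⟩
    simp only [decide_eq_true_eq]
    have h8 := hc v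
    have h9 : 0 < l.count v := List.count_pos_iff.2 hv
    exact Nat.le_trans h9 h8
  have := le_Ls hSC
  omega

theorem Ls_le_Tc (N : ℕ) (g : V N → ℕ) : Ls N (fun v => decide (1 ≤ g v)) ≤ Tc g := by
  classical
  obtain ⟨s, hs1, hs2, hs3⟩ := SC_Ls N (fun v => decide (1 ≤ g v))
  obtain ⟨l, hl⟩ : ∃ l : List (V N), l.map ps = s := by
    have : s ∈ Set.range (List.map (ps : V N → ℕ × ℕ)) := by
      rw [Set.range_list_map]
      intro z hz
      obtain ⟨h1, h2, -⟩ := hs3 z hz
      exact ⟨(⟨z.1, h1⟩, ⟨z.2, h2⟩), rfl⟩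
    exact this
  subst hl
  have hnod : l.Nodup := by
    rw [List.pairwise_map] at hs2
    exact hs2.imp fun {a b} h hab => by subst hab; omega
  have hch : IsChain (· ≤ ·) ((l.toFinset : Finset (V N)) : Set (V N)) := by
    intro a ha b hb hab
    simp only [List.coe_toFinset, Set.mem_ofPred_eq] at ha hb
    rw [List.pairwise_map] at hs2
    have h5 : l.Pairwise (fun a b => ((ps b).1 < (ps a).1 ∧ (ps b).2 < (ps a).2) ∨
        ((ps a).1 < (ps b).1 ∧ (ps a).2 < (ps b).2)) := hs2.imp fun {a b} h => Or.inl h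
    have hsymm : Std.Symm (fun a b : V N => ((ps b).1 < (ps a).1 ∧ (ps b).2 < (ps a).2) ∨
        ((ps a).1 < (ps b).1 ∧ (ps a).2 < (ps b).2)) := ⟨fun a b h => h.symm⟩
    rcases h5.forall ha hb hab with h | h
    · right
      exact ⟨Fin.le_def.2 h.1.le, Fin.le_def.2 h.2.le⟩
    · left
      exact ⟨Fin.le_def.2 h.1.le, Fin.le_def.2 h.2.le⟩
  have h1 := Pool.Agent.W370.LP.dChain N g
  have h2 : ∑ v ∈ l.toFinset, g v ≤ Tc g := by
    rw [h1]
    exact Finset.le_sup (f := fun S : Finset (V N) => ∑ v ∈ S, g v)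
      (Finset.mem_filter.2 ⟨Finset.mem_univ _, hch⟩)
  have h3 : l.toFinset.card ≤ ∑ v ∈ l.toFinset, g v := by
    rw [Finset.card_eq_sum_ones]
    refine Finset.sum_le_sum fun v hv => ?_
    rw [List.mem_toFinset] at hv
    obtain ⟨_, _, h4⟩ := hs3 (ps v) (List.mem_map_of_mem hv)
    simpa [ps] using h4
  rw [List.toFinset_card_of_nodup hnod] at h3
  rw [List.length_map] at hs1
  omega

end Pool.Agent.X133.OP
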