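import Pool.Agent.X133.OP.Val
import Pool.Agent.W533.LP.Stm2

/-!
# Laws
-/

set_option autoImplicit false

open scoped BigOperators ENNReal
open MeasureTheory ProbabilityTheory

namespace Pool.Agent.X133.OP

open Pool.Agent.W533.LP (V muY geoM)

/-- mass `q` at `true` -/
noncomputable def Bq (q : ℝ) : Measure Bool :=
  ENNReal.ofReal q • Measure.dirac true + ENNReal.ofReal (1 - q) • Measure.dirac false

theorem Bq_prob {q : ℝ} (h0 : 0 ≤ q) (h1 : q ≤ 1) : IsProbabilityMeasure (Bq q) := by
  constructor
  unfold Bq
  rw [Measure.add_apply, Measure.smul_apply, Measure.smul_apply, measure_univ, measure_univ,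
    smul_eq_mul, smul_eq_mul, mul_one, mul_one, ← ENNReal.ofReal_add h0 (by linarith)]
  simp

theorem Bq_true (q : ℝ) : Bq q {true} = ENNReal.ofReal q := by
  unfold Bq
  rw [Measure.add_apply, Measure.smul_apply, Measure.smul_apply,
    Measure.dirac_apply' _ (measurableSet_singleton _),
    Measure.dirac_apply' _ (measurableSet_singleton _)]
  simp

theorem Bq_false (q : ℝ) : Bq q {false} = ENNReal.ofReal (1 - q) := by
  unfold Bq
  rw [Measure.add_apply, Measure.smul_apply, Measure.smul_apply,
    Measure.dirac_apply' _ (measurableSet_singleton _),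
    Measure.dirac_apply' _ (measurableSet_singleton _)]
  simp

theorem eq_Bq {q : ℝ} (h0 : 0 ≤ q) (h1 : q ≤ 1) (μ : Measure Bool) [IsProbabilityMeasure μ]
    (h : μ {true} = ENNReal.ofReal q) : μ = Bq q := by
  have := Bq_prob h0 h1
  refine Measure.ext_of_singleton fun b => ?_
  cases b
  · have e1 : ({false} : Set Bool) = {true}ᶜ := by ext x; cases x <;> simp
    rw [e1, prob_compl_eq_one_sub (measurableSet_singleton _),
      prob_compl_eq_one_sub (measurableSet_singleton _), h, Bq_true]
  · rw [h, Bq_true]

/-- the law of the percolation configuration -/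
noncomputable def Pp (p : ℝ) : Measure (Eg → Bool) := Measure.infinitePi fun _ => Bq p

theorem Pp_prob {p : ℝ} (h0 : 0 ≤ p) (h1 : p ≤ 1) : IsProbabilityMeasure (Pp p) := by
  have := Bq_prob h0 h1
  unfold Pp
  infer_instance

/-- probability that given edges are closed -/
theorem Pp_closed {p : ℝ} (h0 : 0 ≤ p) (h1 : p ≤ 1) (l : List Eg) (hl : l.Nodup) :
    (Pp p).real {ω | ∀ e ∈ l, ω e = false} = (1 - p) ^ l.length := by
  have := Bq_prob h0 h1
  have e1 : {ω : Eg → Bool | ∀ e ∈ l, ω e = false} =
      Set.pi (l.toFinset : Set Eg) (fun _ => {false}) := by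
    ext ω
    simp [Set.mem_pi]
  rw [measureReal_def, e1, Pp, Measure.infinitePi_pi _ (fun i _ => measurableSet_singleton _)]
  rw [Finset.prod_congr rfl (fun i _ => Bq_false p), Finset.prod_const,
    List.toFinset_card_of_nodup hl, ENNReal.toReal_pow, ENNReal.toReal_ofReal (by linarith)]

/-- law of a pair -/
theorem pair_law {p : ℝ} (h0 : 0 ≤ p) (h1 : p ≤ 1) :
    (Measure.infinitePi fun _ : Bool => Bq p).map (fun c => !(c false && c true)) =
      Bq (1 - p ^ 2) := by
  have := Bq_prob h0 h1
  have hp2 : p ^ 2 ≤ 1 := by nlinarith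
  have hm : Measurable (fun c : Bool → Bool => !(c false && c true)) := Measurable.of_discrete
  have : IsProbabilityMeasure ((Measure.infinitePi fun _ : Bool => Bq p).map
    (fun c => !(c false && c true))) := Measure.isProbabilityMeasure_map hm.aemeasurable
  refine eq_Bq (by nlinarith) (by nlinarith) _ ?_
  rw [Measure.map_apply hm (measurableSet_singleton _)]
  have e1 : (fun c : Bool → Bool => !(c false && c true)) ⁻¹' {true} =
      ({fun _ => true} : Set (Bool → Bool))ᶜ := by
    ext c
    simp only [Set.mem_preimage, Set.mem_singleton_iff, Bool.not_eq_true', Set.mem_compl_iff]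
    constructor
    · intro h hc
      rw [hc] at h
      simp at h
    · intro h
      by_contra hc
      apply h
      funext b
      rw [Bool.not_eq_false, Bool.and_eq_true] at hc
      cases b
      · exact hc.1
      · exact hc.2
  rw [e1, prob_compl_eq_one_sub (measurableSet_singleton _), Measure.infinitePi_singleton_of_fintype]
  rw [Fintype.prod_bool, Bq_true, ← ENNReal.ofReal_mul h0, ← ENNReal.ofReal_one,
    ← ENNReal.ofReal_sub _ (by positivity)]
  congr 1
  ring

/-- **The field of the closed positions is iid.** -/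
theorem law_eta {p : ℝ} (h0 : 0 ≤ p) (h1 : p ≤ 1) (N : ℕ) (f : V N × Bool → Eg)
    (hf : Function.Injective f) :
    (Pp p).map (fun ω (v : V N) => !(ω (f (v, false)) && ω (f (v, true)))) =
      Measure.pi (fun _ : V N => Bq (1 - p ^ 2)) := by
  have := Bq_prob h0 h1
  have hp2 : p ^ 2 ≤ 1 := by nlinarith
  have hQ := Bq_prob (q := 1 - p ^ 2) (by nlinarith) (by nlinarith)
  have e1 : (Pp p).map (fun ω i => ω (f i)) = Measure.infinitePi (fun _ : V N × Bool => Bq p) := by
    unfold Pp
    exact Measure.map_infinitePi_infinitePi_of_inj hf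
  have e2 := Measure.infinitePi_map_curry (ι := V N) (κ := Bool) (X := Bool)
    (fun _ _ => Bq p)
  have hm : Measurable (fun c : Bool → Bool => !(c false && c true)) := Measurable.of_discrete
  have e3 := Measure.infinitePi_map_pi (μ := fun _ : V N => Measure.infinitePi fun _ : Bool => Bq p)
    (f := fun _ (c : Bool → Bool) => !(c false && c true)) (fun _ => hm)
  rw [pair_law h0 h1] at e3
  rw [← Measure.infinitePi_eq_pi, ← e3, ← e2, ← e1, Measure.map_map (by fun_prop) (by fun_prop),
    Measure.map_map (by fun_prop) (by fun_prop)]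
  rfl

/-- the same field from geometric variables -/
theorem law_geo {q : ℝ} (h0 : 0 ≤ q) (h1 : q < 1) (N : ℕ) (hg : geoM q Set.univ = 1) :
    (muY q N).map (fun g (v : V N) => decide (1 ≤ g v)) = Measure.pi (fun _ : V N => Bq q) := by
  have : IsProbabilityMeasure (geoM q) := ⟨hg⟩
  have hB := Bq_prob h0 h1.le
  have hm : Measurable (fun k : ℕ => decide (1 ≤ k)) := Measurable.of_discrete
  have e1 : (geoM q).map (fun k => decide (1 ≤ k)) = Bq q := by
    have : IsProbabilityMeasure ((geoM q).map (fun k => decide (1 ≤ k))) :=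
      Measure.isProbabilityMeasure_map hm.aemeasurable
    refine eq_Bq h0 h1.le _ ?_
    rw [Measure.map_apply hm (measurableSet_singleton _)]
    have e2 : (fun k : ℕ => decide (1 ≤ k)) ⁻¹' {true} = ({0} : Set ℕ)ᶜ := by
      ext k
      simp only [Set.mem_preimage, Set.mem_singleton_iff, decide_eq_true_eq, Set.mem_compl_iff]
      omega
    have e3 : geoM q {0} = ENNReal.ofReal (1 - q) := by
      unfold geoM
      rw [Measure.sum_apply _ (measurableSet_singleton _)]
      have : ∀ i : ℕ, (ENNReal.ofReal ((1 - q) * q ^ i) • Measure.dirac i) ({0} : Set ℕ) =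
          if i = 0 then ENNReal.ofReal (1 - q) else 0 := by
        intro i
        rw [Measure.smul_apply, Measure.dirac_apply' _ (measurableSet_singleton _)]
        by_cases hi : i = 0
        · subst hi; simp
        · simp [hi]
      simp_rw [this]
      rw [tsum_ite_eq]
    rw [e2, prob_compl_eq_one_sub (measurableSet_singleton _), e3, ← ENNReal.ofReal_one,
      ← ENNReal.ofReal_sub _ (by linarith)]
    congr 1
    ring
  unfold muY
  rw [Measure.pi_map_pi (fun _ => hm.aemeasurable)]
  congr 1
  funext v
  exact e1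

/-- probability of a list of positions for geometric variables -/
theorem geo_list {q : ℝ} (h0 : 0 ≤ q) (h1 : q < 1) (N : ℕ) (l : List (V N)) :
    (muY q N).real {g | ∀ v, l.count v ≤ g v} = q ^ l.length := by
  have hgk : ∀ k : ℕ, geoM q (Set.Ici k) = ENNReal.ofReal (q ^ k) := by
    intro k
    unfold geoM
    rw [Measure.sum_apply _ measurableSet_Ici]
    have h2 : ∀ i : ℕ, (ENNReal.ofReal ((1 - q) * q ^ i) • Measure.dirac i) (Set.Ici k) =
        ENNReal.ofReal (if k ≤ i then (1 - q) * q ^ i else 0) := by
      intro i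
      rw [Measure.smul_apply, Measure.dirac_apply' _ measurableSet_Ici]
      by_cases hi : k ≤ i
      · simp [hi]
      · simp [hi]
    simp_rw [h2]
    have hs : HasSum (fun i : ℕ => if k ≤ i then (1 - q) * q ^ i else 0) (q ^ k) := by
      have h3 : HasSum (fun i : ℕ => (1 - q) * q ^ (i + k)) (q ^ k) := by
        have h4 := (hasSum_geometric_of_lt_one h0 h1).mul_left ((1 - q) * q ^ k)
        have h5 : (1 - q) * q ^ k * (1 - q)⁻¹ = q ^ k := by
          have : (1 - q) ≠ 0 := by linarith
          field_simp
        rw [h5] at h4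
        refine h4.congr_fun ?_
        intro i
        rw [pow_add]
        ring
      rw [← hasSum_nat_add_iff' k]
      have h6 : ∑ i ∈ Finset.range k, (if k ≤ i then (1 - q) * q ^ i else 0) = 0 :=
        Finset.sum_eq_zero fun i hi => by
          rw [Finset.mem_range] at hi
          rw [if_neg (by omega)]
      rw [h6, sub_zero]
      refine h3.congr_fun ?_
      intro i
      rw [if_pos (by omega)]
    rw [← hs.tsum_eq, ENNReal.ofReal_tsum_of_nonneg _ hs.summable]
    intro i
    split_ifs
    · have : 0 ≤ 1 - q := by linarith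
      positivity
    · exact le_rfl
  have hp : IsProbabilityMeasure (geoM q) := ⟨by
    have := hgk 0
    rw [pow_zero, ENNReal.ofReal_one] at this
    rw [← this]
    congr 1
    ext i
    simp⟩
  have e1 : {g : V N → ℕ | ∀ v, l.count v ≤ g v} = Set.pi Set.univ (fun v => Set.Ici (l.count v)) := by
    ext g
    simp only [Set.mem_ofPred_eq, Set.mem_univ_pi, Set.mem_Ici]
  rw [measureReal_def, e1, muY, Measure.pi_pi]
  rw [Finset.prod_congr rfl (fun v _ => hgk (l.count v)), ← ENNReal.ofReal_prod_of_nonneg
    (fun v _ => by positivity), ENNReal.toReal_ofReal (by positivity), Finset.prod_pow_eq_pow_sum]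
  congr 1
  rw [← Finset.sum_subset (Finset.subset_univ l.toFinset)]
  · convert List.sum_toFinset_count_eq_length l
  intro v _ hv
  rw [List.mem_toFinset] at hv
  exact List.count_eq_zero_of_not_mem hv

end Pool.Agent.X133.OP
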